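import Pool.Agent.N904.AP.Stm

set_option autoImplicit false

/-!
# AP/KK: the special circles form a closed and bounded set
-/

open Set Filter Topology

namespace Pool.Agent.N603.APKK

open Pool.Agent.N904.AP

lemma s5_sq : s5 ^ 2 = 5 := Real.sq_sqrt (by norm_num)

lemma s5_pos : 0 < s5 := Real.sqrt_pos.2 (by norm_num)

lemma s5_lt : s5 < 7 / 3 := by
  have h := s5_sq
  have h0 := s5_pos
  by_contra hc
  push Not at hc
  nlinarith

lemma s5_gt : 2 < s5 := by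
  have h := s5_sq
  have h0 := s5_pos
  by_contra hc
  push Not at hc
  nlinarith

lemma lam_eq : lam = 9 + 4 * s5 := rfl

lemma lam_gt : 17 < lam := by
  rw [lam_eq]
  linarith [s5_gt]

lemma lam_pos : 0 < lam := by linarith [lam_gt]

lemma lam_le {n : ℤ} (h : n ≤ 0) : lam ^ n ≤ 1 :=
  zpow_le_one_of_nonpos₀ (by linarith [lam_gt]) h

lemma lam_ge {n : ℤ} (h : 1 ≤ n) : 17 < lam ^ n := by
  have h1 : lam ^ (1 : ℤ) ≤ lam ^ n := zpow_le_zpow_right₀ (by linarith [lam_gt]) h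
  rw [zpow_one] at h1
  linarith [lam_gt]

/-- the set of the parameters -/
def EE : Set ℝ := {t | t = 0 ∨ ∃ n : ℤ, t = lam ^ n / 2}

lemma EE_closed : IsClosed EE := by
  rw [← isOpen_compl_iff, isOpen_iff_mem_nhds]
  intro x hx
  have hx0 : x ≠ 0 := fun h => hx (Or.inl h)
  rcases lt_or_gt_of_ne hx0 with h | h
  · filter_upwards [Iio_mem_nhds h] with t ht hE
    rcases hE with h1 | ⟨n, h1⟩
    · exact absurd h1 (ne_of_lt ht)
    · have : 0 < lam ^ n / 2 := by have := zpow_pos lam_pos n; positivity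
      rw [← h1] at this
      exact absurd ht (not_lt.2 this.le)
  · have hl : 0 < Real.log lam := Real.log_pos (by linarith [lam_gt])
    have hc : ContinuousAt (fun t : ℝ => Real.log (2 * t) / Real.log lam) x := by
      refine ContinuousAt.div_const ?_ _
      refine ContinuousAt.log (by fun_prop) (by positivity)
    have hr : IsClosed (Set.range ((↑) : ℤ → ℝ)) := Int.isClosedEmbedding_coe_real.isClosed_range
    have hn : Real.log (2 * x) / Real.log lam ∈ (Set.range ((↑) : ℤ → ℝ))ᶜ := by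
      rintro ⟨n, h1⟩
      apply hx
      right
      refine ⟨n, ?_⟩
      rw [eq_div_iff hl.ne'] at h1
      have h2 : Real.exp (Real.log (2 * x)) = lam ^ n := by
        rw [← h1, ← Real.rpow_intCast, Real.rpow_def_of_pos lam_pos]
        ring_nf
      rw [Real.exp_log (by positivity)] at h2
      linarith
    filter_upwards [hc.preimage_mem_nhds (hr.isOpen_compl.mem_nhds hn), Ioi_mem_nhds h]
      with t ht ht0 hE
    rcases hE with h1 | ⟨n, h1⟩
    · exact absurd h1 (ne_of_gt ht0)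
    · apply ht
      refine ⟨n, ?_⟩
      have h2 : 2 * t = lam ^ n := by rw [h1]; ring
      change (n : ℝ) = Real.log (2 * t) / Real.log lam
      rw [h2, Real.log_zpow, mul_div_assoc, div_self hl.ne', mul_one]

lemma closed_of {F G : ℂ → ℝ} (hF : Continuous F) (hG : Continuous G)
    (h0 : ∀ z, G z = 0 → F z = 0) : IsClosed {z : ℂ | ∃ t ∈ EE, F z = t * G z} := by
  rw [← isOpen_compl_iff, isOpen_iff_mem_nhds]
  intro z hz
  have hG0 : G z ≠ 0 := by
    intro h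
    exact hz ⟨0, Or.inl rfl, by rw [h0 z h]; ring⟩
  have hc : ContinuousAt (fun w => F w / G w) z := hF.continuousAt.div hG.continuousAt hG0
  have hn : F z / G z ∈ EEᶜ := by
    intro h
    exact hz ⟨_, h, by field_simp⟩
  filter_upwards [hc.preimage_mem_nhds (EE_closed.isOpen_compl.mem_nhds hn),
    hG.continuousAt.eventually_ne hG0] with w hw hw0 hE
  obtain ⟨t, ht, h1⟩ := hE
  apply hw
  have h2 : F w / G w = t := by rw [h1]; field_simp
  change F w / G w ∈ EE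
  rw [h2]
  exact ht

/-- the finite part of `KK` -/
def K' : Set ℂ := {z : ℂ | ∃ t ∈ EE, ‖z‖ ^ 2 - 5 = t * ‖z + (s5 : ℂ)‖ ^ 2} ∪
  {z : ℂ | ∃ t ∈ EE, 5 - ‖z‖ ^ 2 = t * ‖z - (s5 : ℂ)‖ ^ 2}

lemma K'_closed : IsClosed K' := by
  refine IsClosed.union (closed_of (by fun_prop) (by fun_prop) ?_)
    (closed_of (by fun_prop) (by fun_prop) ?_)
  · intro z hz
    have h1 : z + (s5 : ℂ) = 0 := by
      rw [← norm_eq_zero]
      exact pow_eq_zero_iff (two_ne_zero) |>.1 hz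
    have h2 : z = -(s5 : ℂ) := by linear_combination h1
    rw [h2, norm_neg, Complex.norm_real, Real.norm_eq_abs, sq_abs, s5_sq]
    ring
  · intro z hz
    have h1 : z - (s5 : ℂ) = 0 := by
      rw [← norm_eq_zero]
      exact pow_eq_zero_iff (two_ne_zero) |>.1 hz
    have h2 : z = (s5 : ℂ) := by linear_combination h1
    rw [h2, Complex.norm_real, Real.norm_eq_abs, sq_abs, s5_sq]
    ring

lemma norm_s5 : ‖(s5 : ℂ)‖ = s5 := by
  rw [Complex.norm_real, Real.norm_eq_abs, abs_of_pos s5_pos]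

lemma K'_bdd {z : ℂ} (hz : z ∈ K') : ‖z‖ ≤ 7 := by
  have h5 := s5_sq
  have h5p := s5_pos
  have h5l := s5_lt
  have hz0 : 0 ≤ ‖z‖ := norm_nonneg z
  rcases hz with ⟨t, ht, h⟩ | ⟨t, ht, h⟩
  · have hup : ‖z + (s5 : ℂ)‖ ≤ ‖z‖ + s5 := by
      refine (norm_add_le _ _).trans ?_
      rw [norm_s5]
    have hlo : |‖z‖ - s5| ≤ ‖z + (s5 : ℂ)‖ := by
      have h1 := abs_norm_sub_norm_le z (-(s5 : ℂ))
      rw [norm_neg, norm_s5, sub_neg_eq_add] at h1
      exact h1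
    have hup2 : ‖z + (s5 : ℂ)‖ ^ 2 ≤ (‖z‖ + s5) ^ 2 := by
      have := norm_nonneg (z + (s5 : ℂ))
      gcongr
    have hlo2 : (‖z‖ - s5) ^ 2 ≤ ‖z + (s5 : ℂ)‖ ^ 2 := by
      rw [← sq_abs (‖z‖ - s5)]
      gcongr
    have hsq : 0 ≤ ‖z + (s5 : ℂ)‖ ^ 2 := sq_nonneg _
    by_cases h12 : t ≤ 1 / 2
    · have h1 : ‖z‖ ^ 2 - 5 ≤ 1 / 2 * (‖z‖ + s5) ^ 2 := by
        rw [h]
        calc t * ‖z + (s5 : ℂ)‖ ^ 2 ≤ 1 / 2 * ‖z + (s5 : ℂ)‖ ^ 2 :=
              mul_le_mul_of_nonneg_right h12 hsq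
          _ ≤ _ := by linarith
      have h2 : (‖z‖ - 3 * s5) * (‖z‖ + s5) ≤ 0 := by nlinarith
      have h3 : ‖z‖ - 3 * s5 ≤ 0 := by
        by_contra hc
        push Not at hc
        have : 0 < (‖z‖ - 3 * s5) * (‖z‖ + s5) := mul_pos hc (by linarith)
        linarith
      linarith
    · have ht8 : 8 ≤ t := by
        rcases ht with h1 | ⟨n, h1⟩
        · exfalso; apply h12; rw [h1]; norm_num
        · by_cases hn : n ≤ 0
          · exfalso; apply h12; rw [h1]; linarith [lam_le hn]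
          · rw [h1]; linarith [lam_ge (show 1 ≤ n by omega)]
      have h1 : 8 * (‖z‖ - s5) ^ 2 ≤ ‖z‖ ^ 2 - 5 := by
        rw [h]
        calc 8 * (‖z‖ - s5) ^ 2 ≤ 8 * ‖z + (s5 : ℂ)‖ ^ 2 := by linarith
          _ ≤ _ := mul_le_mul_of_nonneg_right ht8 hsq
      have h2 : (‖z‖ - s5) * (7 * ‖z‖ - 9 * s5) ≤ 0 := by nlinarith
      by_contra hc
      push Not at hc
      have : 0 < (‖z‖ - s5) * (7 * ‖z‖ - 9 * s5) := mul_pos (by linarith) (by linarith)
      linarith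
  · have ht0 : 0 ≤ t := by
      rcases ht with h1 | ⟨n, h1⟩
      · rw [h1]
      · rw [h1]; have := zpow_pos lam_pos n; positivity
    have h1 : 0 ≤ t * ‖z - (s5 : ℂ)‖ ^ 2 := by positivity
    by_contra hc
    push Not at hc
    nlinarith

lemma KK_eq : KK = ((↑) : ℂ → OnePoint ℂ) '' K' := by
  ext p
  constructor
  · rintro (hp | hp)
    · rcases hp with ⟨-, h⟩ | ⟨z, rfl, h⟩
      · norm_num at h
      · exact ⟨z, Or.inl ⟨0, Or.inl rfl, h⟩, rfl⟩
    · obtain ⟨n, hn⟩ := Set.mem_iUnion.1 hp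
      rcases hn with hn | hn
      · rcases hn with ⟨-, h⟩ | ⟨z, rfl, h⟩
        · exfalso
          by_cases h0 : n ≤ 0
          · linarith [lam_le h0]
          · linarith [lam_ge (show 1 ≤ n by omega)]
        · exact ⟨z, Or.inl ⟨_, Or.inr ⟨n, rfl⟩, h⟩, rfl⟩
      · obtain ⟨z, rfl, h⟩ := hn
        exact ⟨z, Or.inr ⟨_, Or.inr ⟨n, rfl⟩, h⟩, rfl⟩
  · rintro ⟨z, hz, rfl⟩
    rcases hz with ⟨t, ht, h⟩ | ⟨t, ht, h⟩
    · rcases ht with rfl | ⟨n, rfl⟩
      · exact Or.inl (Or.inr ⟨z, rfl, h⟩)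
      · exact Or.inr (Set.mem_iUnion.2 ⟨n, Or.inl (Or.inr ⟨z, rfl, h⟩)⟩)
    · rcases ht with rfl | ⟨n, rfl⟩
      · refine Or.inl (Or.inr ⟨z, rfl, ?_⟩)
        linarith
      · exact Or.inr (Set.mem_iUnion.2 ⟨n, Or.inr ⟨z, rfl, h⟩⟩)

theorem kk : StKK := by
  constructor
  · rw [KK_eq, OnePoint.isClosed_image_coe]
    refine ⟨K'_closed, ?_⟩
    refine (isCompact_closedBall (0 : ℂ) 7).of_isClosed_subset K'_closed ?_
    intro z hz
    rw [mem_closedBall_zero_iff]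
    exact K'_bdd hz
  · intro z hz
    rw [KK_eq] at hz
    obtain ⟨w, hw, rfl⟩ := hz
    exact ⟨w, rfl, K'_bdd hw⟩

end Pool.Agent.N603.APKK
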