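import Pool.Agent.N904.AP.Basic

set_option autoImplicit false

/-!
# AP/Sup: nice points are accumulation points of every orbit
-/

open Set Filter Topology

namespace Pool.Agent.N603.APSup

open Pool.Agent.N904.AP

/-- the points near which there are small nested discs -/
def L (𝒜 : Set (ℂ × ℂ)) : Set (OnePoint ℂ) :=
  {x | ∀ U ∈ 𝓝 x, ∃ l, InA 𝒜 l ∧ ∃ a ∈ 𝒜, wd l '' up (Dk a) ⊆ U}

variable {𝒜 : Set (ℂ × ℂ)}

lemma L_closed : IsClosed (L 𝒜) := by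
  rw [← closure_subset_iff_isClosed]
  intro x hx U hU
  obtain ⟨y, hy1, hy2⟩ := mem_closure_iff_nhds.1 hx (interior U) (interior_mem_nhds.2 hU)
  obtain ⟨l, hl, a, ha, h⟩ := hy2 (interior U) (isOpen_interior.mem_nhds hy1)
  exact ⟨l, hl, a, ha, h.trans interior_subset⟩

lemma L_sg (hA : Adm 𝒜) {b : ℂ × ℂ} (hb : b ∈ 𝒜) {x : OnePoint ℂ} (hx : x ∈ L 𝒜) :
    sg b x ∈ L 𝒜 := by
  intro U hU
  obtain ⟨l, hl, a, ha, h⟩ := hx _ ((continuous_sg (hA.ne b hb)).continuousAt.preimage_mem_nhds hU)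
  refine ⟨b :: l, hl.cons hb, a, ha, ?_⟩
  rintro _ ⟨p, hp, rfl⟩
  exact h ⟨p, hp, rfl⟩

lemma L_wd (hA : Adm 𝒜) {l : List (ℂ × ℂ)} (hl : InA 𝒜 l) {x : OnePoint ℂ} (hx : x ∈ L 𝒜) :
    wd l x ∈ L 𝒜 := by
  induction l with
  | nil => exact hx
  | cons a l ih => exact L_sg hA hl.head (ih hl.tail)

lemma nest_append (l : List (ℂ × ℂ)) (a : ℂ × ℂ) : nest (l ++ [a]) = wd l '' up (Dk a) := by
  induction l with
  | nil =>
    show up (Dk a) = _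
    have : wd ([] : List (ℂ × ℂ)) = id := rfl
    rw [this, image_id]
  | cons b l ih =>
    have h1 : nest (b :: (l ++ [a])) = sg b '' nest (l ++ [a]) := by
      cases l with
      | nil => rfl
      | cons c l => rfl
    rw [List.cons_append, h1, ih, image_image]
    rfl

lemma case_A (hA : Adm 𝒜) {w : ℂ} (h1 : ∀ a ∈ 𝒜, (w : OnePoint ℂ) ∉ up (Dk a))
    (h2 : (w : OnePoint ℂ) ∈ closure (up (⋃ a ∈ 𝒜, Dk a))) : (w : OnePoint ℂ) ∈ L 𝒜 := by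
  intro U hU
  have hU' : ((↑) : ℂ → OnePoint ℂ) ⁻¹' U ∈ 𝓝 w :=
    OnePoint.continuous_coe.continuousAt.preimage_mem_nhds hU
  obtain ⟨ε, hε, hb⟩ := Metric.mem_nhds_iff.1 hU'
  have hF := hA.fin (ε / 4) (by positivity)
  have hC : IsClosed (⋃ a ∈ {a ∈ 𝒜 | ε / 4 ≤ rad a}, Dk a) :=
    hF.isClosed_biUnion fun a _ => Metric.isClosed_closedBall
  have hw : w ∉ ⋃ a ∈ {a ∈ 𝒜 | ε / 4 ≤ rad a}, Dk a := by
    intro h
    obtain ⟨a, ha, hwa⟩ := Set.mem_iUnion₂.1 h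
    exact h1 a ha.1 (mem_up.2 hwa)
  have hV : Metric.ball w (ε / 2) ∩ (⋃ a ∈ {a ∈ 𝒜 | ε / 4 ≤ rad a}, Dk a)ᶜ ∈ 𝓝 w :=
    inter_mem (Metric.ball_mem_nhds w (by positivity)) (hC.isOpen_compl.mem_nhds hw)
  have hV' : ((↑) : ℂ → OnePoint ℂ) ''
      (Metric.ball w (ε / 2) ∩ (⋃ a ∈ {a ∈ 𝒜 | ε / 4 ≤ rad a}, Dk a)ᶜ) ∈ 𝓝 (w : OnePoint ℂ) :=
    OnePoint.isOpenEmbedding_coe.isOpenMap.image_mem_nhds hV
  obtain ⟨p, ⟨v, ⟨hv1, hv2⟩, rfl⟩, hp⟩ := mem_closure_iff_nhds.1 h2 _ hV'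
  rw [mem_up] at hp
  obtain ⟨a, ha, hva⟩ := Set.mem_iUnion₂.1 hp
  refine ⟨[], by intro b hb; simp at hb, a, ha, ?_⟩
  rintro _ ⟨_, ⟨u, hu, rfl⟩, rfl⟩
  have hra : rad a < ε / 4 := by
    by_contra hc
    push Not at hc
    exact hv2 (Set.mem_iUnion₂.2 ⟨a, ⟨ha, hc⟩, hva⟩)
  have hu1 : u ∈ Metric.ball w ε := by
    rw [Metric.mem_ball] at hv1 ⊢
    have h3 : dist u a.1 ≤ rad a := Metric.mem_closedBall.1 hu
    have h4 : dist v a.1 ≤ rad a := Metric.mem_closedBall.1 hva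
    have h5 := dist_triangle4_right u w a.1 v
    have h6 : dist u w ≤ dist u a.1 + dist a.1 v + dist v w := dist_triangle4 u a.1 v w
    rw [dist_comm a.1 v] at h6
    linarith
  exact hb hu1

lemma case_B (h1 : StContr) (hA : Adm 𝒜) {w : ℂ}
    (h2 : ∀ n : ℕ, ∃ l, InA 𝒜 l ∧ Red l ∧ l.length = n + 1 ∧ (w : OnePoint ℂ) ∈ nest l) :
    (w : OnePoint ℂ) ∈ L 𝒜 := by
  obtain ⟨hi, -, hiii⟩ := h1 𝒜 hA
  intro U hU
  have hU' : ((↑) : ℂ → OnePoint ℂ) ⁻¹' U ∈ 𝓝 w :=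
    OnePoint.continuous_coe.continuousAt.preimage_mem_nhds hU
  obtain ⟨ε, hε, hb⟩ := Metric.mem_nhds_iff.1 hU'
  have hfin := hiii ε hε
  have hbd : ∃ N : ℕ, ∀ l ∈ {l | InA 𝒜 l ∧ Red l ∧ l ≠ [] ∧ ε ≤ Metric.diam (low (nest l))},
      l.length ≤ N := by
    obtain ⟨N, hN⟩ := (hfin.image List.length).bddAbove
    exact ⟨N, fun l hl => hN ⟨l, hl, rfl⟩⟩
  obtain ⟨N, hN⟩ := hbd
  obtain ⟨l, hl1, hl2, hl3, hl4⟩ := h2 N
  have hne : l ≠ [] := by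
    rintro rfl
    simp at hl3
  have hdiam : Metric.diam (low (nest l)) < ε := by
    by_contra hc
    push Not at hc
    have := hN l ⟨hl1, hl2, hne, hc⟩
    omega
  obtain ⟨b, t, hbt⟩ := List.exists_cons_of_ne_nil hne
  have hsub := hi l hl1 hl2 b t hbt
  have hbdd : Bornology.IsBounded (low (nest l)) := by
    refine (Metric.isBounded_closedBall (x := b.1) (r := rad b)).subset ?_
    intro u hu
    exact mem_up.1 (hsub hu)
  rcases List.eq_nil_or_concat l with h | ⟨l', a, h⟩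
  · exact absurd h hne
  · rw [List.concat_eq_append] at h
    refine ⟨l', fun c hc => hl1 c (by rw [h]; simp [hc]), a, hl1 a (by rw [h]; simp), ?_⟩
    rw [← nest_append, ← h]
    intro p hp
    obtain ⟨u, -, rfl⟩ := hsub hp
    have hu : u ∈ Metric.ball w ε := by
      rw [Metric.mem_ball]
      exact (Metric.dist_le_diam_of_mem hbdd hp hl4).trans_lt hdiam
    exact hb hu

lemma nice_sub (h1 : StContr) (h3 : StItin) (hA : Adm 𝒜) : NiceA 𝒜 ⊆ L 𝒜 := by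
  intro y hy
  by_cases hc : ∀ l, InA 𝒜 l → ∃ a ∈ 𝒜, wd l y ∈ up (Metric.ball a.1 (rad a))
  · have h2 := h3 𝒜 hA y hc
    have hy0 := (hy [] (by intro b hb; simp at hb)).1
    rw [wd_nil] at hy0
    obtain ⟨w, rfl⟩ := OnePoint.ne_infty_iff_exists.1 hy0
    exact case_B h1 hA h2
  · push Not at hc
    obtain ⟨l, hl, h⟩ := hc
    obtain ⟨ha, hb, hcl⟩ := hy l hl
    obtain ⟨w, hw⟩ := OnePoint.ne_infty_iff_exists.1 ha
    have h4 : (w : OnePoint ℂ) ∈ L 𝒜 := by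
      refine case_A hA ?_ (by rw [hw]; exact hcl)
      intro a ha' hmem
      have h5 := hb a ha'
      have h6 := h a ha'
      rw [← hw, mem_up] at h5 h6
      rw [mem_up] at hmem
      have h7 : dist w a.1 ≤ rad a := Metric.mem_closedBall.1 hmem
      rw [Metric.mem_ball, not_lt] at h6
      exact h5 (Metric.mem_sphere.2 (le_antisymm h7 h6))
    have h8 : y = wd l.reverse (wd l y) :=
      (wd_reverse_wd (fun a ha => hA.ne a (hl a ha)) y).symm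
    rw [h8]
    refine L_wd hA hl.reverse ?_
    rw [← hw]
    exact h4

open Classical in
lemma two_letters (hA : Adm 𝒜)
    (h4 : ∃ a₁ ∈ 𝒜, ∃ a₂ ∈ 𝒜, ∃ a₃ ∈ 𝒜, ∃ a₄ ∈ 𝒜, [a₁, a₂, a₃, a₄].Nodup) (z : OnePoint ℂ)
    (a : ℂ × ℂ) : ∃ b ∈ 𝒜, ∃ c ∈ 𝒜, b ≠ c ∧ b ≠ a ∧ c ≠ a ∧ z ∉ up (Dk b) ∧ z ∉ up (Dk c) := by
  obtain ⟨a₁, h1, a₂, h2, a₃, h3, a₄, h4, hn⟩ := h4
  set S : Finset (ℂ × ℂ) := [a₁, a₂, a₃, a₄].toFinset with hS
  have hcard : S.card = 4 := by rw [hS, List.toFinset_card_of_nodup hn]; rfl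
  have hSA : ∀ b ∈ S, b ∈ 𝒜 := by
    intro b hb
    rw [hS, List.mem_toFinset] at hb
    simp only [List.mem_cons, List.not_mem_nil, or_false] at hb
    rcases hb with rfl | rfl | rfl | rfl <;> assumption
  have hb1 : (S.filter (fun b => b = a)).card ≤ 1 := by
    rw [Finset.card_le_one]
    intro b hb c hc
    rw [(Finset.mem_filter.1 hb).2, (Finset.mem_filter.1 hc).2]
  have hb2 : (S.filter (fun b => z ∈ up (Dk b))).card ≤ 1 := by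
    rw [Finset.card_le_one]
    intro b hb c hc
    obtain ⟨hb1, hb2⟩ := Finset.mem_filter.1 hb
    obtain ⟨hc1, hc2⟩ := Finset.mem_filter.1 hc
    by_contra hne
    obtain ⟨w, hw, rfl⟩ := hb2
    have hw' : w ∈ Dk c := mem_up.1 hc2
    exact Set.disjoint_left.1 (hA.disj (hSA b hb1) (hSA c hc1) hne) hw hw'
  have hgood : 1 < (S \ (S.filter (fun b => b = a) ∪ S.filter (fun b => z ∈ up (Dk b)))).card := by
    have h5 := Finset.le_card_sdiff (S.filter (fun b => b = a) ∪ S.filter (fun b => z ∈ up (Dk b))) S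
    have h6 := Finset.card_union_le (S.filter (fun b => b = a)) (S.filter (fun b => z ∈ up (Dk b)))
    omega
  obtain ⟨b, hb, c, hc, hbc⟩ := Finset.one_lt_card.1 hgood
  simp only [Finset.mem_sdiff, Finset.mem_union, Finset.mem_filter, not_or, not_and] at hb hc
  exact ⟨b, hSA b hb.1, c, hSA c hc.1, hbc, hb.2.1 hb.1, hc.2.1 hc.1, hb.2.2 hb.1, hc.2.2 hc.1⟩

lemma L_sub (hA : Adm 𝒜)
    (h4 : ∃ a₁ ∈ 𝒜, ∃ a₂ ∈ 𝒜, ∃ a₃ ∈ 𝒜, ∃ a₄ ∈ 𝒜, [a₁, a₂, a₃, a₄].Nodup) (z : OnePoint ℂ) :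
    L 𝒜 ⊆ derivedSet (orb 𝒜 z) := by
  intro x hx
  rw [mem_derivedSet, accPt_iff_nhds]
  intro U hU
  obtain ⟨l, hl, a, ha, hlU⟩ := hx U hU
  obtain ⟨b, hb, c, hc, hbc, hba, hca, hzb, hzc⟩ := two_letters hA h4 z a
  have hball : ∀ d : ℂ × ℂ, up (Metric.ball d.1 (rad d)) ⊆ up (Dk d) := by
    rintro d _ ⟨w, hw, rfl⟩
    exact ⟨w, Metric.ball_subset_closedBall hw, rfl⟩
  have hdisj : ∀ d ∈ 𝒜, ∀ e ∈ 𝒜, d ≠ e → ∀ p ∈ up (Dk d), p ∉ up (Dk e) := by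
    rintro d hd e he hne _ ⟨w, hw, rfl⟩ h
    exact Set.disjoint_left.1 (hA.disj hd he hne) hw (mem_up.1 h)
  have h1 : ∀ d ∈ 𝒜, d ≠ a → z ∉ up (Dk d) →
      wd l (sg a (sg d z)) ∈ U ∧ wd l (sg a (sg d z)) ∈ orb 𝒜 z ∧ sg d z ∈ up (Dk d) := by
    intro d hd hda hz
    have h2 : sg d z ∈ up (Dk d) := hball d (sg_mem_ball (hA.ne d hd) hz)
    have h3 : sg a (sg d z) ∈ up (Dk a) :=
      sg_mem_Dk (hA.ne a ha) fun h => hdisj d hd a ha hda _ h2 (hball a h)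
    refine ⟨hlU ⟨_, h3, rfl⟩, ⟨l ++ [a, d], ?_, ?_⟩, h2⟩
    · refine hl.append ?_
      intro e he
      simp only [List.mem_cons, List.not_mem_nil, or_false] at he
      rcases he with rfl | rfl
      · exact ha
      · exact hd
    · rw [wd_append]
      rfl
  obtain ⟨hb1, hb2, hb3⟩ := h1 b hb hba hzb
  obtain ⟨hc1, hc2, hc3⟩ := h1 c hc hca hzc
  have hne : wd l (sg a (sg b z)) ≠ wd l (sg a (sg c z)) := by
    intro h
    have h5 := sg_injective (hA.ne a ha) (wd_injective (fun d hd => hA.ne d (hl d hd)) h)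
    rw [h5] at hb3
    exact hdisj c hc b hb hbc.symm _ hc3 hb3
  by_cases hx1 : wd l (sg a (sg b z)) = x
  · exact ⟨_, ⟨hc1, hc2⟩, fun h => hne (hx1.trans h.symm)⟩
  · exact ⟨_, ⟨hb1, hb2⟩, hx1⟩

theorem sup_of (h1 : StContr) (_h2 : StRed) (h3 : StItin) : StSup := by
  intro 𝒜 hA h4 z
  exact (closure_minimal (nice_sub h1 h3 hA) L_closed).trans (L_sub hA h4 z)

end Pool.Agent.N603.APSup
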