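import Pool.Agent.N979.CP.Stm4
import Pool.Agent.N526.CP.SPH

/-!
# FB/JJ3: the double integral in dimension four

`JJ_eq` reduces the double integral in every dimension to an integral over the line: exchange the
two integrals, use the invariance of the ball and cut the ball into slices.
-/

set_option autoImplicit false

namespace Pool.Agent.N603.FB

open MeasureTheory Metric Set Filter Topology
open Pool.Agent.H241R3.FV Pool.Agent.N526.CP Pool.Agent.N979.CP

/-- the integral over the ball of a function of an inner product does not depend on the direction -/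
lemma ball_dir (n : ℕ) (F : ℝ → ℝ) (u v : E n) (h : ‖u‖ = ‖v‖) :
    ∫ y in ball (0 : E n) 1, F (inner ℝ y u) = ∫ y in ball (0 : E n) 1, F (inner ℝ y v) := by
  have hR : Submodule.reflection (ℝ ∙ (u - v))ᗮ u = v := Submodule.reflection_sub h
  set R := Submodule.reflection (ℝ ∙ (u - v))ᗮ with hRd
  have hp : MeasurePreserving (R : E n → E n) volume volume := R.measurePreserving
  have h1 := hp.setIntegral_preimage_emb R.toHomeomorph.measurableEmbedding
    (fun y => F (inner ℝ y v)) (ball (0 : E n) 1)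
  have h2 : (R : E n → E n) ⁻¹' (ball (0 : E n) 1) = ball (0 : E n) 1 := by
    ext y
    simp
  rw [h2] at h1
  rw [← h1]
  refine integral_congr_ae (Eventually.of_forall fun y => ?_)
  simp only
  rw [← hR, LinearIsometryEquiv.inner_map_map]

/-- the mean over all directions -/
lemma mean_dir (d : ℕ) (hprob : IsProbabilityMeasure (sg (d + 1))) (F : ℝ → ℝ) (hF : Measurable F)
    (C : ℝ) (hC : ∀ w, |w| ≤ 1 → |F w| ≤ C) :
    ∫ y in ball (0 : E (d + 1)) 1, ∫ θ : Sph (d + 1), F (ip y θ) ∂(sg (d + 1)) =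
      ∫ y in ball (0 : E (d + 1)) 1, F (y 0) := by
  have hfin : IsFiniteMeasure ((volume : Measure (E (d + 1))).restrict (ball 0 1)) :=
    ⟨by rw [Measure.restrict_apply_univ]; exact measure_ball_lt_top⟩
  have hip : ∀ (y : E (d + 1)) (θ : Sph (d + 1)), y ∈ ball (0 : E (d + 1)) 1 → |ip y θ| ≤ 1 := by
    intro y θ hy
    have h1 := abs_real_inner_le_norm y (θ : E (d + 1))
    have h2 : ‖(θ : E (d + 1))‖ = 1 := by simp
    rw [mem_ball, dist_zero_right] at hy
    rw [h2, mul_one] at h1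
    exact h1.trans hy.le
  have hmeas : Measurable (fun p : E (d + 1) × Sph (d + 1) => F (ip p.1 p.2)) := by
    refine hF.comp ?_
    have : Continuous (fun p : E (d + 1) × Sph (d + 1) => ip p.1 p.2) := by
      unfold ip
      fun_prop
    exact this.measurable
  have hint : Integrable (Function.uncurry fun (y : E (d + 1)) (θ : Sph (d + 1)) => F (ip y θ))
      (((volume : Measure (E (d + 1))).restrict (ball 0 1)).prod (sg (d + 1))) := by
    refine Integrable.of_bound hmeas.aestronglyMeasurable C ?_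
    have h1 : ∀ᵐ p ∂(((volume : Measure (E (d + 1))).restrict (ball 0 1)).prod (sg (d + 1))),
        p.1 ∈ ball (0 : E (d + 1)) 1 := by
      have h2 : ∀ᵐ y ∂((volume : Measure (E (d + 1))).restrict (ball 0 1)),
        y ∈ ball (0 : E (d + 1)) 1 := ae_restrict_mem isOpen_ball.measurableSet
      exact Measure.quasiMeasurePreserving_fst.ae h2
    filter_upwards [h1] with p hp
    exact hC _ (hip p.1 p.2 hp)
  rw [integral_integral_swap hint]
  have h3 : ∀ θ : Sph (d + 1), ∫ y in ball (0 : E (d + 1)) 1, F (ip y θ) =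
      ∫ y in ball (0 : E (d + 1)) 1, F (y 0) := by
    intro θ
    have h4 := ball_dir (d + 1) F (θ : E (d + 1)) (EuclideanSpace.single 0 1) (by simp)
    unfold ip
    rw [h4]
    refine integral_congr_ae (Eventually.of_forall fun y => ?_)
    simp only
    rw [EuclideanSpace.inner_single_right]
    simp
  simp only [h3]
  rw [integral_const]
  simp

/-- slices of the ball -/
lemma slice (d : ℕ) (F : ℝ → ℝ) (hF : Measurable F) (C : ℝ) (hC : ∀ w, |w| ≤ 1 → |F w| ≤ C) :
    ∫ y in ball (0 : E (d + 1)) 1, F (y 0) =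
      ∫ a : ℝ, F a * (volume (ball (0 : E d) √(1 - a ^ 2))).toReal := by
  have hC0 : 0 ≤ C := (abs_nonneg _).trans (hC 0 (by simp))
  -- the indicator
  set S : Set (ℝ × (Fin d → ℝ)) := {p | p.1 ^ 2 + ∑ i, p.2 i ^ 2 < 1} with hS
  have hSm : MeasurableSet S := measurableSet_lt (by fun_prop) measurable_const
  set Γ : ℝ × (Fin d → ℝ) → ℝ := S.indicator (fun p => F p.1) with hΓ
  have h0 : ∫ y in ball (0 : E (d + 1)) 1, F (y 0) =
      ∫ y : E (d + 1), (ball (0 : E (d + 1)) 1).indicator (fun y => F (y 0)) y :=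
    (integral_indicator isOpen_ball.measurableSet).symm
  rw [h0]
  set H : E (d + 1) → ℝ := (ball (0 : E (d + 1)) 1).indicator (fun y => F (y 0)) with hH
  have h1 : ∫ x : E (d + 1), H x = ∫ z : Fin (d + 1) → ℝ, H (WithLp.toLp 2 z) :=
    ((PiLp.volume_preserving_toLp (Fin (d + 1))).integral_comp
      (MeasurableEquiv.toLp 2 (Fin (d + 1) → ℝ)).measurableEmbedding _).symm
  rw [h1]
  have h2 := ((volume_preserving_piFinSuccAbove (fun _ : Fin (d + 1) => ℝ) 0).symm).integral_comp
    (MeasurableEquiv.piFinSuccAbove (fun _ : Fin (d + 1) => ℝ) 0).symm.measurableEmbedding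
    (fun z : Fin (d + 1) → ℝ => H (WithLp.toLp 2 z))
  rw [← h2]
  have h3 : ∀ p : ℝ × (Fin d → ℝ), (fun z : Fin (d + 1) → ℝ => H (WithLp.toLp 2 z))
        ((MeasurableEquiv.piFinSuccAbove (fun _ : Fin (d + 1) => ℝ) 0).symm p) = Γ p := by
    intro p
    have hn : ‖(WithLp.toLp 2 ((MeasurableEquiv.piFinSuccAbove (fun _ : Fin (d + 1) => ℝ) 0).symm p) :
        E (d + 1))‖ = √(p.1 ^ 2 + ∑ i, p.2 i ^ 2) := by
      rw [EuclideanSpace.norm_eq, Fin.sum_univ_succ]
      simp [MeasurableEquiv.piFinSuccAbove]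
    have hm : (WithLp.toLp 2 ((MeasurableEquiv.piFinSuccAbove (fun _ : Fin (d + 1) => ℝ) 0).symm p) :
        E (d + 1)) ∈ ball (0 : E (d + 1)) 1 ↔ p ∈ S := by
      rw [mem_ball, dist_zero_right, hn, hS]
      have : (1 : ℝ) = √1 := Real.sqrt_one.symm
      rw [this]
      constructor
      · intro h
        have := (Real.sqrt_lt_sqrt_iff (by
          have := Finset.sum_nonneg (fun i (_ : i ∈ Finset.univ) => sq_nonneg (p.2 i))
          positivity)).1 h
        simpa using this
      · intro h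
        refine Real.sqrt_lt_sqrt ?_ (by simpa using h)
        have := Finset.sum_nonneg (fun i (_ : i ∈ Finset.univ) => sq_nonneg (p.2 i))
        positivity
    simp only [hH, hΓ]
    by_cases hp : p ∈ S
    · rw [indicator_of_mem hp, indicator_of_mem (hm.2 hp)]
      congr 1
    · rw [indicator_of_notMem hp, indicator_of_notMem (fun h => hp (hm.1 h))]
  rw [integral_congr_ae (Filter.Eventually.of_forall h3)]
  rw [Measure.volume_eq_prod]
  have hint : Integrable Γ ((volume : Measure ℝ).prod (volume : Measure (Fin d → ℝ))) := by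
    rw [← Measure.volume_eq_prod]
    set B : Set (ℝ × (Fin d → ℝ)) := closedBall 0 1 with hB
    have hBm : MeasurableSet B := isClosed_closedBall.measurableSet
    have hBf : volume B < ⊤ := measure_closedBall_lt_top
    have hi : Integrable (B.indicator fun _ => C) := by
      rw [integrable_indicator_iff hBm]
      exact integrableOn_const hBf.ne
    refine hi.mono' ?_ ?_
    · exact ((hF.comp measurable_fst).indicator hSm).aestronglyMeasurable
    · filter_upwards with p
      rw [Real.norm_eq_abs]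
      by_cases hp : p ∈ S
      · have hsum := Finset.sum_nonneg (fun i (_ : i ∈ Finset.univ) => sq_nonneg (p.2 i))
        have hp' : p.1 ^ 2 + ∑ i, p.2 i ^ 2 < 1 := hp
        have hp1 : |p.1| ≤ 1 := by
          rw [abs_le_one_iff_mul_self_le_one]
          nlinarith
        have hpB : p ∈ B := by
          rw [hB, mem_closedBall, dist_zero_right, Prod.norm_def]
          refine max_le (by rw [Real.norm_eq_abs]; exact hp1) ?_
          rw [pi_norm_le_iff_of_nonneg (by norm_num)]
          intro i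
          rw [Real.norm_eq_abs, abs_le_one_iff_mul_self_le_one]
          have h4 := Finset.single_le_sum (fun i (_ : i ∈ Finset.univ) => sq_nonneg (p.2 i))
            (Finset.mem_univ i)
          have h5 := sq_nonneg p.1
          nlinarith
        rw [hΓ, indicator_of_mem hp, indicator_of_mem hpB]
        exact hC _ hp1
      · rw [hΓ, indicator_of_notMem hp, abs_zero]
        by_cases hpB : p ∈ B
        · rw [indicator_of_mem hpB]; exact hC0
        · rw [indicator_of_notMem hpB]
  rw [integral_prod _ hint]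
  refine integral_congr_ae (Eventually.of_forall fun a => ?_)
  simp only
  have h6 : ∀ z : Fin d → ℝ, Γ (a, z) =
      ({z : Fin d → ℝ | a ^ 2 + ∑ i, z i ^ 2 < 1}).indicator (fun _ => F a) z := by
    intro z
    rw [hΓ]
    by_cases hz : (a, z) ∈ S
    · rw [indicator_of_mem hz, indicator_of_mem (by exact hz)]
    · rw [indicator_of_notMem hz, indicator_of_notMem (by exact hz)]
  simp only [h6]
  have h7 : MeasurableSet {z : Fin d → ℝ | a ^ 2 + ∑ i, z i ^ 2 < 1} :=
    measurableSet_lt (by fun_prop) measurable_const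
  rw [integral_indicator h7, setIntegral_const, smul_eq_mul, mul_comm]
  congr 1
  rw [Measure.real]
  congr 1

  have h9 : {z : Fin d → ℝ | a ^ 2 + ∑ i, z i ^ 2 < 1} =
      (MeasurableEquiv.toLp 2 (Fin d → ℝ)) ⁻¹' (ball (0 : E d) √(1 - a ^ 2)) := by
    ext z
    rw [mem_preimage, mem_ball, dist_zero_right]
    have h10 : ‖(MeasurableEquiv.toLp 2 (Fin d → ℝ)) z‖ = √(∑ i, z i ^ 2) := by
      rw [EuclideanSpace.norm_eq]
      simp
    rw [h10]
    have hsum := Finset.sum_nonneg (fun i (_ : i ∈ Finset.univ) => sq_nonneg (z i))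
    constructor
    · intro h
      exact Real.sqrt_lt_sqrt hsum (by
        have : a ^ 2 + ∑ i, z i ^ 2 < 1 := h
        linarith)
    · intro h
      have := (Real.sqrt_lt_sqrt_iff hsum).1 h
      show a ^ 2 + ∑ i, z i ^ 2 < 1
      linarith
  rw [h9]
  exact (PiLp.volume_preserving_toLp (Fin d)).measure_preimage
    isOpen_ball.measurableSet.nullMeasurableSet

/-- the function -/
noncomputable def Fst (s t : ℝ) (d : ℕ) (w : ℝ) : ℝ :=
  (√(1 - (t * w) ^ 2))⁻¹ * ((√(1 - (s * w) ^ 2))⁻¹) ^ d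

lemma Fst_meas (s t : ℝ) (d : ℕ) : Measurable (Fst s t d) := by
  unfold Fst
  fun_prop

lemma inv_sqrt_bound (s w : ℝ) (hs0 : 0 < s) (hs1 : s < 1) (hw : |w| ≤ 1) :
    0 ≤ (√(1 - (s * w) ^ 2))⁻¹ ∧ (√(1 - (s * w) ^ 2))⁻¹ ≤ (√(1 - s ^ 2))⁻¹ := by
  have hw2 : w ^ 2 ≤ 1 := by
    rw [← sq_abs]
    nlinarith [abs_nonneg w]
  have h1 : 1 - s ^ 2 ≤ 1 - (s * w) ^ 2 := by
    rw [mul_pow]
    nlinarith [sq_nonneg s]
  have h2 : 0 < 1 - s ^ 2 := by nlinarith
  exact ⟨by positivity, inv_anti₀ (Real.sqrt_pos.2 h2) (Real.sqrt_le_sqrt h1)⟩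

lemma Fst_bound (s t : ℝ) (d : ℕ) (hs0 : 0 < s) (hs1 : s < 1) (ht0 : 0 < t) (ht1 : t < 1)
    (w : ℝ) (hw : |w| ≤ 1) :
    |Fst s t d w| ≤ (√(1 - t ^ 2))⁻¹ * ((√(1 - s ^ 2))⁻¹) ^ d := by
  obtain ⟨a1, a2⟩ := inv_sqrt_bound s w hs0 hs1 hw
  obtain ⟨b1, b2⟩ := inv_sqrt_bound t w ht0 ht1 hw
  unfold Fst
  rw [abs_of_nonneg (mul_nonneg b1 (pow_nonneg a1 _))]
  exact mul_le_mul b2 (pow_le_pow_left₀ a1 a2 _) (pow_nonneg a1 _) (by positivity)

lemma Fst_even (s t : ℝ) (d : ℕ) (w : ℝ) : Fst s t d (-w) = Fst s t d w := by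
  unfold Fst
  rw [mul_neg, mul_neg, neg_sq, neg_sq]

/-- reduction of the double integral to one variable -/
lemma JJ_eq (d : ℕ) (hprob : IsProbabilityMeasure (sg (d + 1))) (s t : ℝ) (hs0 : 0 < s)
    (hs1 : s < 1) (ht0 : 0 < t) (ht1 : t < 1) :
    JJ d s t = ∫ a : ℝ, Fst s t d a * (volume (ball (0 : E d) √(1 - a ^ 2))).toReal := by
  have h1 := mean_dir d hprob (Fst s t d) (Fst_meas s t d) _ (Fst_bound s t d hs0 hs1 ht0 ht1)
  rw [slice d (Fst s t d) (Fst_meas s t d) _ (Fst_bound s t d hs0 hs1 ht0 ht1)] at h1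
  exact h1

/-- an even function on the line which vanishes outside of the unit interval -/
lemma even_int (g : ℝ → ℝ) (hg : ∀ x, g (-x) = g x) (h0 : ∀ x, 1 < |x| → g x = 0)
    (hi : IntervalIntegrable g volume 0 1) :
    ∫ x, g x = 2 * ∫ x in (0 : ℝ)..1, g x := by
  have h1 : ∫ x, g x = ∫ x in Icc (-1 : ℝ) 1, g x := by
    rw [← integral_indicator measurableSet_Icc]
    congr 1
    ext x
    by_cases hx : x ∈ Icc (-1 : ℝ) 1
    · rw [indicator_of_mem hx]
    · rw [indicator_of_notMem hx]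
      refine h0 x ?_
      rw [lt_abs]
      by_contra hc
      push Not at hc
      exact hx ⟨by linarith, hc.1⟩
  rw [h1, integral_Icc_eq_integral_Ioc, ← intervalIntegral.integral_of_le (by norm_num)]
  have hi2 : IntervalIntegrable g volume (-1) 0 := by
    have h2 := (IntervalIntegrable.iff_comp_neg (f := g) (a := 0) (b := 1) (by simp)).1 hi
    simp only [hg, neg_zero] at h2
    exact h2.symm
  rw [← intervalIntegral.integral_add_adjacent_intervals hi2 hi]
  have h3 : ∫ x in (-1 : ℝ)..0, g x = ∫ x in (0 : ℝ)..1, g x := by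
    have h4 := intervalIntegral.integral_comp_neg (a := 0) (b := 1) g
    simp only [hg, neg_zero] at h4
    exact h4.symm
  rw [h3]
  ring

lemma cont_int (s t : ℝ) (d : ℕ) (hs0 : 0 < s) (hs1 : s < 1) (ht0 : 0 < t) (ht1 : t < 1)
    (h : ℝ → ℝ) (hh : Continuous h) :
    IntervalIntegrable (fun x => h x * Fst s t d x) volume 0 1 := by
  refine ContinuousOn.intervalIntegrable ?_
  rw [uIcc_of_le (by norm_num)]
  have hne : ∀ r : ℝ, 0 < r → r < 1 → ∀ x ∈ Icc (0 : ℝ) 1, √(1 - (r * x) ^ 2) ≠ 0 := by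
    intro r h0 h1 x hx
    have h2 : r * x < 1 := by nlinarith [hx.1, hx.2]
    have h3 : 0 ≤ r * x := mul_nonneg h0.le hx.1
    have h4 : 0 < 1 - (r * x) ^ 2 := by nlinarith
    exact (Real.sqrt_pos.2 h4).ne'
  unfold Fst
  refine hh.continuousOn.mul (ContinuousOn.mul ?_ (ContinuousOn.pow ?_ _))
  · exact ContinuousOn.inv₀ (by fun_prop) (hne t ht0 ht1)
  · exact ContinuousOn.inv₀ (by fun_prop) (hne s hs0 hs1)

theorem main : S_JJ3 := by
  intro s t hs0 hs1 ht0 ht1
  have hprob : IsProbabilityMeasure (sg (3 + 1)) := Pool.Agent.N526.CP.SPH.prob 3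
  rw [JJ_eq 3 hprob s t hs0 hs1 ht0 ht1]
  have h1 : ∀ a : ℝ, Fst s t 3 a * (volume (ball (0 : E 3) √(1 - a ^ 2))).toReal =
      Real.pi * 4 / 3 * (√(1 - a ^ 2) ^ 3 * Fst s t 3 a) := by
    intro a
    rw [EuclideanSpace.volume_ball_fin_three, ENNReal.toReal_mul, ENNReal.toReal_pow,
      ENNReal.toReal_ofReal (Real.sqrt_nonneg _), ENNReal.toReal_ofReal (by positivity)]
    ring
  simp only [h1]
  rw [integral_const_mul, even_int (fun a => √(1 - a ^ 2) ^ 3 * Fst s t 3 a)]
  · unfold Fst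
    ring
  · intro x
    rw [Fst_even, neg_sq]
  · intro x hx
    have h2 : 1 - x ^ 2 ≤ 0 := by
      have : 1 < |x| ^ 2 := by nlinarith
      rw [sq_abs] at this
      linarith
    rw [Real.sqrt_eq_zero_of_nonpos h2]
    simp
  · exact cont_int s t 3 hs0 hs1 ht0 ht1 (fun x => √(1 - x ^ 2) ^ 3) (by fun_prop)

end Pool.Agent.N603.FB
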