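import Pool.Agent.N804.GM.StmG

/-!
# GM/8: the Poisson mean bounds the zeros from above, uniformly in a family
-/

set_option autoImplicit false

namespace Pool.Agent.N603.GM8

open Filter Topology Set MeasureTheory
open Pool.Agent.W188.GLR Pool.Agent.N799.LH Pool.Agent.N799.GL Pool.Agent.N804.GM

/-- the kernel -/
theorem kernel {a A x y : ℝ} (ha : 0 < a) (hx0 : 0 < x) (hxa : x < a) (hy : |y| ≤ A) (z : ℂ)
    (hzx : z.re = x) (hzy : z.im = y) :
    a * x / (4 * a ^ 2 + A ^ 2) ≤ Real.log (‖(a : ℂ) + z‖ / ‖(a : ℂ) - z‖) := by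
  have hy2 : y ^ 2 ≤ A ^ 2 := by
    rw [← sq_abs y]
    exact pow_le_pow_left₀ (abs_nonneg y) hy 2
  have hD : 0 < 4 * a ^ 2 + A ^ 2 := by positivity
  have n1 : ‖(a : ℂ) + z‖ ^ 2 = (a + x) ^ 2 + y ^ 2 := by
    rw [Complex.sq_norm, Complex.normSq_apply, Complex.add_re, Complex.add_im, Complex.ofReal_re,
      Complex.ofReal_im, hzx, hzy]
    ring
  have n2 : ‖(a : ℂ) - z‖ ^ 2 = (a - x) ^ 2 + y ^ 2 := by
    rw [Complex.sq_norm, Complex.normSq_apply, Complex.sub_re, Complex.sub_im, Complex.ofReal_re,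
      Complex.ofReal_im, hzx, hzy]
    ring
  have hax : 0 < a - x := by linarith
  have p2 : 0 < (a - x) ^ 2 + y ^ 2 := by positivity
  have p1 : 0 < ‖(a : ℂ) - z‖ := by
    rw [← n2] at p2
    by_contra hcon
    have : ‖(a : ℂ) - z‖ = 0 := le_antisymm (not_lt.1 hcon) (norm_nonneg _)
    rw [this] at p2
    norm_num at p2
  have p0 : 0 < ‖(a : ℂ) + z‖ := by
    have : 0 < ‖(a : ℂ) + z‖ ^ 2 := by
      rw [n1]
      positivity
    by_contra hcon
    have h : ‖(a : ℂ) + z‖ = 0 := le_antisymm (not_lt.1 hcon) (norm_nonneg _)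
    rw [h] at this
    norm_num at this
  set X : ℝ := 4 * a * x / (4 * a ^ 2 + A ^ 2) with hX
  have hX0 : 0 < X := by positivity
  have hX1 : X ≤ 1 := by
    rw [hX, div_le_one hD]
    nlinarith [mul_pos ha hax, sq_nonneg A]
  have h1 : 1 + X ≤ (‖(a : ℂ) + z‖ / ‖(a : ℂ) - z‖) ^ 2 := by
    rw [div_pow, n1, n2, le_div_iff₀ p2]
    have h2 : X * ((a - x) ^ 2 + y ^ 2) ≤ X * (4 * a ^ 2 + A ^ 2) := by
      apply mul_le_mul_of_nonneg_left _ hX0.le
      nlinarith [mul_pos ha hax, mul_pos hx0 hax]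
    have h3 : X * (4 * a ^ 2 + A ^ 2) = 4 * a * x := by
      rw [hX, div_mul_cancel₀ _ hD.ne']
    nlinarith
  have h2 : Real.log (1 + X) ≤ 2 * Real.log (‖(a : ℂ) + z‖ / ‖(a : ℂ) - z‖) := by
    have h3 := Real.log_le_log (by linarith) h1
    rw [Real.log_pow] at h3
    exact_mod_cast h3
  have h3 : X / 2 ≤ Real.log (1 + X) := by
    have h4 := Real.one_sub_inv_le_log_of_pos (x := 1 + X) (by linarith)
    refine le_trans ?_ h4
    have h5 : (1 + X)⁻¹ * (1 + X) = 1 := inv_mul_cancel₀ (by linarith)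
    have h6 : 1 - (1 + X)⁻¹ = X * (1 + X)⁻¹ := by
      rw [mul_add, mul_one] at h5
      linarith
    rw [h6]
    have h7 : (1 / 2 : ℝ) ≤ (1 + X)⁻¹ := by
      rw [← one_div]
      exact one_div_le_one_div_of_le (by linarith) (by linarith)
    nlinarith
  have h4 : a * x / (4 * a ^ 2 + A ^ 2) = X / 4 := by
    rw [hX]
    ring
  rw [h4]
  linarith

theorem main (h : S_PJ) : S_GV := by
  intro ι m N mu f X δ a b H ha hb hfar A
  have ha0 : 0 < a := by linarith
  have hπ := Real.pi_pos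
  obtain ⟨C0, hC0, hcr⟩ := Pool.Agent.H983R4.GL.crude H.afam
  set κ0 : ℝ := a / (4 * a ^ 2 + A ^ 2) with hκ0
  have hκ : 0 < κ0 := by positivity
  set C1 : ℝ := a / Real.pi / κ0 with hC1
  set C2 : ℝ := |Real.log b| / κ0 with hC2
  set C3 : ℝ := |Real.log b| * Real.pi / a with hC3
  have h1p : 0 < C1 := by positivity
  have h2p : 0 ≤ C2 := by positivity
  have h3p : 0 ≤ C3 := by positivity
  refine ⟨max C1 (C3 + C2 + 1), lt_max_of_lt_left h1p, fun i t => ?_⟩
  set Cc : ℝ := max C1 (C3 + C2 + 1) with hCc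
  have hCc1 : C1 ≤ Cc := le_max_left _ _
  have hCc2 : C3 + C2 + 1 ≤ Cc := le_max_right _ _
  set c : ℂ := 1 / 2 + t * Complex.I with hc
  set F : ℂ → ℂ := fun z => f i (c + 1 * z) with hF
  have hcre : c.re = 1 / 2 := by
    rw [hc]
    simp
  have hcim : c.im = t := by
    rw [hc]
    simp
  -- growth
  have hP := H.C1 i
  set P : ℝ := (N i : ℝ) * ∏ j, (1 + ‖mu i j‖) with hPdef
  have hm0 : (0 : ℝ) ≤ m := Nat.cast_nonneg _
  have hlogP : 0 ≤ Real.log P := Real.log_nonneg hP
  have hlogC : 0 ≤ Real.log C0 := Real.log_nonneg hC0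
  have ht0 : 0 ≤ Real.log (1 + |t|) := Real.log_nonneg (by linarith [abs_nonneg t])
  have hgrow : ∀ z : ℂ, 0 ≤ z.re → ‖F z‖ ≤ Real.exp ((Real.log C0 + m * Real.log P +
      m * Real.log (1 + |t|) + m) * (1 + Real.log (1 + ‖z‖))) := by
    intro z hz
    have hre : (c + 1 * z).re = 1 / 2 + z.re := by
      rw [one_mul, Complex.add_re, hcre]
    have him : (c + 1 * z).im = t + z.im := by
      rw [one_mul, Complex.add_im, hcim]
    have h1 := hcr i (c + 1 * z) (by rw [hre]; linarith)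
    rw [him] at h1
    refine h1.trans ?_
    have hz0 : 0 ≤ Real.log (1 + ‖z‖) := Real.log_nonneg (by linarith [norm_nonneg z])
    have q0 : 0 < 1 + |t + z.im| := by positivity
    have q1 : 1 + |t + z.im| ≤ (1 + |t|) * (1 + ‖z‖) := by
      have e1 := abs_add_le t z.im
      have e2 := Complex.abs_im_le_norm z
      have e3 : 0 ≤ |t| * ‖z‖ := by positivity
      nlinarith
    have q2 : Real.log (1 + |t + z.im|) ≤ Real.log (1 + |t|) + Real.log (1 + ‖z‖) := by
      have := Real.log_le_log q0 q1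
      rwa [Real.log_mul (by positivity) (by positivity)] at this
    have hP0 : 0 < P := by linarith
    have e4 : ((1 + |t + z.im|) * P) ^ (m : ℝ) =
        Real.exp (m * (Real.log (1 + |t + z.im|) + Real.log P)) := by
      rw [Real.rpow_def_of_pos (by positivity), Real.log_mul q0.ne' hP0.ne', mul_comm]
    change C0 * ((1 + |t + z.im|) * P) ^ (m : ℝ) ≤ _
    rw [e4]
    nth_rewrite 1 [← Real.exp_log (show 0 < C0 by linarith)]
    rw [← Real.exp_add]
    apply Real.exp_le_exp.2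
    have q3 : m * (Real.log (1 + |t + z.im|) + Real.log P) ≤
        m * (Real.log (1 + |t|) + Real.log (1 + ‖z‖) + Real.log P) := by
      gcongr
    have q4 : 0 ≤ (Real.log C0 + m * Real.log P + m * Real.log (1 + |t|)) *
        Real.log (1 + ‖z‖) := by positivity
    nlinarith
  have hF0 : 1 / b ≤ ‖F a‖ := by
    refine (hfar i (c + 1 * (a : ℂ)) ?_).1
    rw [one_mul, Complex.add_re, hcre, Complex.ofReal_re]
  have hFne : F a ≠ 0 := by
    intro h0
    rw [h0, norm_zero] at hF0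
    have : 0 < 1 / b := by positivity
    linarith
  have hlogF : -|Real.log b| ≤ Real.log ‖F a‖ := by
    have h1 := Real.log_le_log (by positivity) hF0
    rw [one_div, Real.log_inv] at h1
    linarith [le_abs_self (Real.log b)]
  obtain ⟨hint, hsum⟩ := h F _ a ha0 (by
    intro z _
    have h1 := H.entire i
    have h2 : Differentiable ℂ F := h1.comp (by fun_prop)
    exact h2.analyticAt z) hgrow hFne
  have hval : ∀ u : ℝ, F ((u - t : ℝ) * Complex.I) = f i (1 / 2 + u * Complex.I) := by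
    intro u
    rw [hF]
    change f i (c + 1 * (((u - t : ℝ) : ℂ) * Complex.I)) = _
    congr 1
    rw [hc]
    push_cast
    ring
  have hfun : (fun u : ℝ => Real.log ‖f i (1 / 2 + u * Complex.I)‖ / (a ^ 2 + (u - t) ^ 2)) =
      fun u : ℝ => (fun y : ℝ => Real.log ‖F (y * Complex.I)‖ / (a ^ 2 + y ^ 2)) (u - t) := by
    funext u
    change _ = Real.log ‖F (((u - t : ℝ) : ℂ) * Complex.I)‖ / (a ^ 2 + (u - t) ^ 2)
    rw [hval]
  have hPM : PM a (f i) t = ∫ y : ℝ, Real.log ‖F (y * Complex.I)‖ / (a ^ 2 + y ^ 2) := by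
    unfold PM
    rw [hfun]
    exact integral_sub_right_eq_self
      (fun y : ℝ => Real.log ‖F (y * Complex.I)‖ / (a ^ 2 + y ^ 2)) t
  rw [← hPM] at hsum
  refine ⟨?_, fun S hS => ?_⟩
  · rw [hfun]
    exact hint.comp_sub_right t
  -- lower bound of the Poisson mean
  have hlow : 0 ≤ PM a (f i) t + C3 := by
    have h1 := hsum ∅ (by simp)
    rw [Finset.sum_empty, add_zero] at h1
    have h2 : -|Real.log b| ≤ a / Real.pi * PM a (f i) t := hlogF.trans h1
    have h3 : a / Real.pi * (PM a (f i) t + C3) = a / Real.pi * PM a (f i) t + |Real.log b| := by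
      rw [hC3, mul_add]
      congr 1
      field_simp
    have h4 : 0 ≤ a / Real.pi * (PM a (f i) t + C3) := by
      rw [h3]
      linarith
    exact nonneg_of_mul_nonneg_right h4 (by positivity)
  -- the zeros
  classical
  set S' : Finset ℂ := S.image fun s => s - c with hS'
  have hzero : ∀ s ∈ S, s.re < 1 / 2 + a := by
    intro s hs
    by_contra hcon
    have h1 := (hfar i s (not_lt.1 hcon)).1
    rw [(hS s hs).2.2, norm_zero] at h1
    have : 0 < 1 / b := by positivity
    linarith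
  have h1 := hsum S' (by
    intro z hz
    rw [hS', Finset.mem_image] at hz
    obtain ⟨s, hs, rfl⟩ := hz
    refine ⟨?_, ?_⟩
    · rw [Complex.sub_re, hcre]
      linarith [(hS s hs).1]
    · change f i (c + 1 * (s - c)) = 0
      rw [one_mul, add_sub_cancel]
      exact (hS s hs).2.2)
  rw [hS', Finset.sum_image (fun x _ y _ hxy => sub_left_injective hxy)] at h1
  have h2 : ∑ s ∈ S, κ0 * ((analyticOrderNatAt (f i) s : ℝ) * (s.re - 1 / 2)) ≤
      ∑ s ∈ S, (analyticOrderNatAt F (s - c) : ℝ) *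
        Real.log (‖(a : ℂ) + (s - c)‖ / ‖(a : ℂ) - (s - c)‖) := by
    refine Finset.sum_le_sum fun s hs => ?_
    have ho : analyticOrderNatAt F (s - c) = analyticOrderNatAt (f i) s := by
      have h3 := order_affine (f i) c (one_ne_zero) (s - c)
      rw [one_mul, add_sub_cancel] at h3
      exact h3
    rw [ho]
    have h3 := kernel (a := a) (A := A) (x := s.re - 1 / 2) (y := s.im - t) ha0
      (by linarith [(hS s hs).1]) (by linarith [hzero s hs]) (hS s hs).2.1 (s - c)
      (by rw [Complex.sub_re, hcre]) (by rw [Complex.sub_im, hcim])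
    calc κ0 * ((analyticOrderNatAt (f i) s : ℝ) * (s.re - 1 / 2)) =
        (analyticOrderNatAt (f i) s : ℝ) * (a * (s.re - 1 / 2) / (4 * a ^ 2 + A ^ 2)) := by
          rw [hκ0]
          ring
      _ ≤ _ := mul_le_mul_of_nonneg_left h3 (Nat.cast_nonneg _)
  rw [← Finset.mul_sum] at h2
  have h3 : κ0 * ∑ s ∈ S, (analyticOrderNatAt (f i) s : ℝ) * (s.re - 1 / 2) ≤
      a / Real.pi * PM a (f i) t + |Real.log b| := by linarith
  have h4 : ∑ s ∈ S, (analyticOrderNatAt (f i) s : ℝ) * (s.re - 1 / 2) ≤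
      C1 * PM a (f i) t + C2 := by
    have h5 : C1 * PM a (f i) t + C2 = (a / Real.pi * PM a (f i) t + |Real.log b|) / κ0 := by
      rw [hC1, hC2]
      ring
    rw [h5, le_div_iff₀ hκ, mul_comm]
    exact h3
  refine h4.trans ?_
  have h5 : C1 * (PM a (f i) t + C3) ≤ Cc * (PM a (f i) t + C3) :=
    mul_le_mul_of_nonneg_right hCc1 hlow
  have h6 : Cc * (C3 + C2 + 1) ≤ Cc * Cc :=
    mul_le_mul_of_nonneg_left hCc2 (h1p.le.trans hCc1)
  have h7 : C2 ≤ Cc * C2 + Cc := by
    have : 1 ≤ Cc := by linarith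
    nlinarith
  have h8 : 0 ≤ C1 * C3 := by positivity
  nlinarith

end Pool.Agent.N603.GM8
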