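import Pool.Agent.N906.KG.Nt

/-!
# KG/BXU: upper bound in a cube
-/

set_option autoImplicit false

namespace Pool.Agent.N603.KG

open NumberField IsDedekindDomain Finset Filter Topology Pool.Agent.H691R3 Pool.Agent.W223.AK
open Pool.Agent.N906.KG

theorem bxu (K : Type) [Field K] [NumberField K] (h1 : S_SEQ0 K) (h2 : S_TEL K) : S_BXU K := by
  classical
  intro N hN
  obtain ⟨C, hC, hS⟩ := h1 N (by omega)
  set d := Module.finrank ℚ K with hd
  refine ⟨C * ((2 : ℝ) * ((N : ℝ) + 1) ^ d) ^ N, by positivity, ?_⟩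
  intro R D m c F hR hD hm hlen hF
  have hR0 : 0 < R := by linarith
  let B : Fin (N + 1) → InfinitePlace K → ℝ := fun _ _ => (N + 1) * R
  have hB : ∀ k w, 0 < B k w := fun _ _ => by
    change 0 < ((N : ℝ) + 1) * R
    positivity
  have h3 := hS (Equiv.refl _) D m c B F hB hm hF
  have hRj : ∀ j, Rj B (Equiv.refl _) j = (((N : ℝ) + 1) * R) ^ d := by
    intro j
    have hne : Nonempty {i : Fin (N + 1) // j.castSucc < i} :=
      ⟨⟨Fin.last N, Fin.castSucc_lt_last j⟩⟩
    unfold Rj bn
    have h4 : ∀ w : InfinitePlace K, (min (B ((Equiv.refl _) j.castSucc) w)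
        (⨆ i : {i : Fin (N + 1) // j.castSucc < i}, B ((Equiv.refl _) i) w)) =
        ((N : ℝ) + 1) * R := by
      intro w
      change min (((N : ℝ) + 1) * R)
        (⨆ _i : {i : Fin (N + 1) // j.castSucc < i}, ((N : ℝ) + 1) * R) = _
      rw [ciSup_const, min_self]
    simp only [h4]
    rw [Finset.prod_pow_eq_pow_sum, InfinitePlace.sum_mult_eq]
  have hlj0 : ∀ j, 0 ≤ lj D (Equiv.refl _) j := by
    intro j
    unfold lj
    exact Finset.sum_nonneg fun v _ => mul_nonneg (Nat.cast_nonneg _) (log_Nv_pos v).le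
  have htel : ∑ j, lj D (Equiv.refl _) j = tl D := (h2 N (Equiv.refl _) (by omega)).2 D hD
  have hlj : ∀ j, lj D (Equiv.refl _) j ≤ tl D := by
    intro j
    rw [← htel]
    exact Finset.single_le_sum (f := fun j => lj D (Equiv.refl _) j) (fun i _ => hlj0 i)
      (Finset.mem_univ j)
  have hRd : R ^ d = Real.exp (d * Real.log R) := by
    rw [Real.exp_nat_mul, Real.exp_log hR0]
  have hterm : ∀ j, Rj B (Equiv.refl _) j * Real.exp (-lj D (Equiv.refl _) j - len m) + 1 ≤
      (2 * ((N : ℝ) + 1) ^ d) * R ^ d * Real.exp (-lj D (Equiv.refl _) j - len m) := by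
    intro j
    rw [hRj, mul_pow]
    have h5 : 1 ≤ R ^ d * Real.exp (-lj D (Equiv.refl _) j - len m) := by
      rw [hRd, ← Real.exp_add]
      apply Real.one_le_exp
      have := hlj j
      linarith
    have h6 : (1 : ℝ) ≤ ((N : ℝ) + 1) ^ d := one_le_pow₀ (by linarith [Nat.cast_nonneg (α := ℝ) N])
    have h7 : 1 ≤ ((N : ℝ) + 1) ^ d * (R ^ d * Real.exp (-lj D (Equiv.refl _) j - len m)) := by
      nlinarith
    linarith
  have hprod : ∏ j, (Rj B (Equiv.refl _) j * Real.exp (-lj D (Equiv.refl _) j - len m) + 1) ≤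
      ((2 * ((N : ℝ) + 1) ^ d)) ^ N *
        Real.exp (N * (d * Real.log R) - tl D - N * len m) := by
    refine (Finset.prod_le_prod (fun j _ => ?_) fun j _ => hterm j).trans (le_of_eq ?_)
    · rw [hRj]
      positivity
    · rw [Finset.prod_mul_distrib, Finset.prod_const, Finset.card_univ, Fintype.card_fin,
        ← Real.exp_sum, Finset.sum_sub_distrib, Finset.sum_neg_distrib, htel, Finset.sum_const,
        Finset.card_univ, Fintype.card_fin, mul_pow, hRd, ← Real.exp_nat_mul, mul_assoc,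
        ← Real.exp_add, nsmul_eq_mul]
      congr 2
      ring
  calc (F.card : ℝ) ≤ C * ∏ j, (Rj B (Equiv.refl _) j *
        Real.exp (-lj D (Equiv.refl _) j - len m) + 1) := h3
    _ ≤ C * (((2 * ((N : ℝ) + 1) ^ d)) ^ N *
        Real.exp (N * (d * Real.log R) - tl D - N * len m)) :=
        mul_le_mul_of_nonneg_left hprod hC.le
    _ = _ := by ring

end Pool.Agent.N603.KG
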