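import Pool.Agent.N661.QB.Stm

/-!
# QB/DER3: from the two point functions to all derivatives
-/

set_option autoImplicit false
open MeasureTheory Filter Topology Complex
open scoped ContDiff

namespace Pool.Agent.N603.QBDER3

open Pool.Agent.W745.RW (lap dx dy TF)
open Pool.Agent.Y265.HY (FW FD)
open Pool.Agent.N661.BR (J0)
open Pool.Agent.N661.BH (HP loc mv IsQuantumErgodic area)
open Pool.Agent.N814.BHASM (wl wl_eq wt)
open Pool.Agent.TH294.RS (TF.mulc TF.zero)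
open Pool.Agent.N661.QB

noncomputable section

variable {Ω : Set ℂ} {lam : ℕ → ℝ} {u : ℕ → ℂ → ℝ}

lemma wt_tf' (H : HypE Ω lam u) {φ : ℂ → ℝ} (hφ : TF Ω φ) : TF Ω (wt φ) := by
  have sy : ContDiffOn ℝ ∞ (fun z : ℂ => (z.im ^ 2)⁻¹) Ω := by
    refine ContDiffOn.inv ((imCLM.contDiff.pow 2).contDiffOn) fun z hz => ?_
    exact pow_ne_zero 2 (H.sub hz : 0 < z.im).ne'
  exact TF.mulc H.op hφ sy

lemma area_eq {φ : ℂ → ℝ} (hφ : TF Ω φ) (g : ℂ → ℂ) :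
    area Ω (fun z => (φ z : ℂ) * g z) = ∫ z, (wt φ z : ℂ) * g z := by
  unfold area
  rw [setIntegral_eq_integral_of_forall_compl_eq_zero]
  · congr 1
    funext z
    unfold wt
    push_cast
    ring
  · intro z hz
    change ((1 / z.im ^ 2 : ℝ) : ℂ) * ((φ z : ℂ) * g z) = 0
    rw [TF.zero hφ hz]
    simp

lemma w0 (n : ℕ) (z : ℂ) : wl lam u 0 n z = (u n z : ℂ) := by
  rw [wl_eq]
  rfl

lemma J0_zero : J0 0 = 1 := by
  unfold J0
  simp only [zero_mul, Real.cos_zero, intervalIntegral.integral_const, sub_zero, smul_eq_mul,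
    mul_one]
  have := Real.pi_pos
  field_simp

/-- the two point function with derivatives -/
def Pf (lam : ℕ → ℝ) (u : ℕ → ℂ → ℝ) (ψ : ℂ → ℝ) (v : ℂ) (n : ℕ) (k : ℤ) (t : ℝ) : ℂ :=
  ∫ z, (ψ z : ℂ) * (wl lam u 0 n z * wl lam u k n (mv (t * (1 / √(lam n))) v z))

/-- the correlations -/
def cf (lam : ℕ → ℝ) (u : ℕ → ℂ → ℝ) (ψ : ℂ → ℝ) (n : ℕ) (k : ℤ) : ℂ :=
  ∫ z, (ψ z : ℂ) * (wl lam u 0 n z * wl lam u k n z)

lemma Pf_zero (ψ : ℂ → ℝ) (v : ℂ) (n : ℕ) (k : ℤ) : Pf lam u ψ v n k 0 = cf lam u ψ n k := by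
  unfold Pf cf
  have h : ∀ z, mv (0 * (1 / √(lam n))) v z = z := by
    intro z
    unfold mv
    simp
  simp only [h]

lemma Pf_T2 (ψ : ℂ → ℝ) (v : ℂ) (n : ℕ) (t : ℝ) :
    Pf lam u ψ v n 0 t = (T2 ψ (lam n) (u n) (t * v) : ℂ) := by
  unfold Pf T2
  have h : ∀ z, mv (t * (1 / √(lam n))) v z = mv (1 / √(lam n)) (t * v) z := by
    intro z
    unfold mv
    push_cast
    ring
  rw [← integral_complex_ofReal]
  congr 1
  funext z
  rw [w0, w0, h]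
  push_cast
  ring

/-- sums of roots of unity -/
lemma rsum {N : ℕ} {ζ : ℂ} (hζ : IsPrimitiveRoot ζ N) {m : ℕ} (h0 : m ≠ 0) (hm : m < N) :
    ∑ l ∈ Finset.range N, ζ ^ (l * m) = 0 := by
  have h1 : ζ ^ m ≠ 1 := hζ.pow_ne_one_of_pos_of_lt h0 hm
  have h2 : (∑ l ∈ Finset.range N, (ζ ^ m) ^ l) * (ζ ^ m - 1) = (ζ ^ m) ^ N - 1 := geom_sum_mul _ _
  rw [← pow_mul, mul_comm m N, pow_mul, hζ.pow_eq_one, one_pow, sub_self] at h2
  have h3 : ∑ l ∈ Finset.range N, (ζ ^ m) ^ l = 0 :=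
    (mul_eq_zero.1 h2).resolve_right (sub_ne_zero.2 h1)
  rw [← h3]
  refine Finset.sum_congr rfl fun l _ => ?_
  rw [← pow_mul, mul_comm l m]

/-- the combination which gives the `j`-th correlation -/
lemma comb {j : ℕ} (hj : j ≠ 0) {ζ : ℂ} (hζ : IsPrimitiveRoot ζ (2 * j + 1)) (c : ℤ → ℂ)
    (v : ℕ → ℂ) (hv : ∀ l, ζ ^ l * v l = 1) :
    ∑ l ∈ Finset.range (2 * j + 1), ζ ^ (l * j) * ∑ i ∈ Finset.range (j + 1),
      (j.choose i : ℂ) * (v l / 2) ^ i * (-(ζ ^ l / 2)) ^ (j - i) * c (2 * i - j) =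
    (2 * j + 1) * (1 / 2) ^ j * c j := by
  have h1 : ∀ l, ∀ i ∈ Finset.range (j + 1), ζ ^ (l * j) * ((j.choose i : ℂ) * (v l / 2) ^ i *
      (-(ζ ^ l / 2)) ^ (j - i) * c (2 * i - j)) =
      ((j.choose i : ℂ) * (1 / 2) ^ j * (-1) ^ (j - i) * c (2 * i - j)) *
        ζ ^ (l * (2 * (j - i))) := by
    intro l i hi
    have hij : i ≤ j := Nat.lt_succ_iff.1 (Finset.mem_range.1 hi)
    obtain ⟨r, rfl⟩ := Nat.exists_eq_add_of_le hij
    rw [Nat.add_sub_cancel_left]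
    have e1 : ζ ^ (l * (i + r)) = (ζ ^ l) ^ i * (ζ ^ l) ^ r := by rw [pow_mul, pow_add]
    have e2 : ζ ^ (l * (2 * r)) = (ζ ^ l) ^ r * (ζ ^ l) ^ r := by
      rw [pow_mul, two_mul, pow_add]
    have e3 : (ζ ^ l) ^ i * (v l) ^ i = 1 := by rw [← mul_pow, hv, one_pow]
    have e4 : -(ζ ^ l / 2) = (-1) * (1 / 2) * ζ ^ l := by ring
    have e5 : v l / 2 = 1 / 2 * v l := by ring
    rw [e1, e2, e4, e5, mul_pow, mul_pow, mul_pow, pow_add]
    calc (ζ ^ l) ^ i * (ζ ^ l) ^ r * (((i + r).choose i : ℂ) * ((1 / 2) ^ i * v l ^ i) *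
          ((-1) ^ r * (1 / 2) ^ r * (ζ ^ l) ^ r) * c (2 * i - (i + r : ℕ)))
        = ((ζ ^ l) ^ i * v l ^ i) * (((i + r).choose i : ℂ) * ((1 / 2) ^ i * (1 / 2) ^ r) *
          (-1) ^ r * c (2 * i - (i + r : ℕ)) * ((ζ ^ l) ^ r * (ζ ^ l) ^ r)) := by ring
      _ = _ := by rw [e3, one_mul]
  simp only [Finset.mul_sum]
  rw [Finset.sum_congr rfl fun l _ => Finset.sum_congr rfl (h1 l), Finset.sum_comm]
  rw [Finset.sum_congr rfl fun i _ => (Finset.mul_sum _ _ _).symm]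
  rw [Finset.sum_eq_single j]
  · simp only [Nat.sub_self, mul_zero, pow_zero, Finset.sum_const, Finset.card_range,
      Nat.choose_self, Nat.cast_one, one_mul, mul_one, nsmul_eq_mul]
    have : (2 * (j : ℤ) - j) = j := by ring
    rw [this]
    push_cast
    ring
  · intro i hi hne
    have hij : i < j := lt_of_le_of_ne (Nat.lt_succ_iff.1 (Finset.mem_range.1 hi)) hne
    rw [rsum hζ (by omega) (by omega), mul_zero]
  · intro h
    exact absurd (Finset.mem_range.2 (Nat.lt_succ_self j)) h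

lemma cj (h1 : S_DER1) (h2 : S_DER2)
    (hs : SY0 Ω (fun n => 1 / √(lam n)) (wl lam u))
    (hT : ∀ φ, TF Ω φ → ∀ v : ℂ, Tendsto (fun n => T2 φ (lam n) (u n) v) atTop
      (𝓝 (J0 ‖v‖ * ∫ z, φ z))) {ψ : ℂ → ℝ} (hψ : TF Ω ψ) {j : ℕ} (hj : j ≠ 0) :
    Tendsto (fun n => cf lam u ψ n j) atTop (𝓝 0) := by
  set ζ : ℂ := Complex.exp (2 * Real.pi * I / (2 * j + 1 : ℕ)) with hζd
  have hζ : IsPrimitiveRoot ζ (2 * j + 1) := Complex.isPrimitiveRoot_exp (2 * j + 1) (by omega)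
  have hn : ∀ l : ℕ, ‖(starRingEnd ℂ) (ζ ^ l)‖ = 1 := by
    intro l
    rw [RCLike.norm_conj, norm_pow, hζ.norm'_eq_one (by omega), one_pow]
  have hv : ∀ l : ℕ, ζ ^ l * (starRingEnd ℂ) (ζ ^ l) = 1 := by
    intro l
    rw [Complex.mul_conj, Complex.normSq_eq_norm_sq, norm_pow, hζ.norm'_eq_one (by omega)]
    simp
  have hlim : ∀ v : ℂ, ‖v‖ = 1 → ∀ t ∈ Set.Icc (0 : ℝ) 1,
      Tendsto (fun n => Pf lam u ψ v n 0 t - Pf lam u ψ 1 n 0 t) atTop (𝓝 0) := by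
    intro v hv1 t ht
    have a1 := hT ψ hψ (t * v)
    have a2 := hT ψ hψ (t * 1)
    rw [norm_mul, hv1] at a1
    rw [norm_mul, norm_one] at a2
    have a3 := a1.sub a2
    rw [sub_self] at a3
    have a4 := (Complex.continuous_ofReal.tendsto 0).comp a3
    rw [Complex.ofReal_zero] at a4
    refine a4.congr fun n => ?_
    rw [Pf_T2, Pf_T2]
    change ((T2 ψ (lam n) (u n) (t * v) - T2 ψ (lam n) (u n) (t * 1) : ℝ) : ℂ) = _
    push_cast
    rfl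
  obtain ⟨Q', hQ⟩ := h1 Ω _ _ hs ψ hψ 1
  have hX : ∀ l : ℕ, Tendsto (fun n =>
      (∑ i ∈ Finset.range (j + 1), (j.choose i : ℂ) * ((starRingEnd ℂ) (ζ ^ l) / 2) ^ i *
        (-(ζ ^ l / 2)) ^ (j - i) * cf lam u ψ n (2 * i - j)) -
      LL (1 / 2) (-((starRingEnd ℂ) 1 / 2)) j (Pf lam u ψ 1 n)) atTop (𝓝 0) := by
    intro l
    obtain ⟨P', hP⟩ := h1 Ω _ _ hs ψ hψ ((starRingEnd ℂ) (ζ ^ l))
    have b1 := h2 (Pf lam u ψ ((starRingEnd ℂ) (ζ ^ l))) P' (Pf lam u ψ 1) Q' _ _ _ _ _ hs.hpos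
      hs.hlim hP hQ (hlim _ (hn l)) j
    refine b1.congr fun n => ?_
    congr 1
    unfold LL
    refine Finset.sum_congr rfl fun i _ => ?_
    rw [Pf_zero, Complex.conj_conj]
  have hS : Tendsto (fun n => ∑ l ∈ Finset.range (2 * j + 1), ζ ^ (l * j) *
      ((∑ i ∈ Finset.range (j + 1), (j.choose i : ℂ) * ((starRingEnd ℂ) (ζ ^ l) / 2) ^ i *
        (-(ζ ^ l / 2)) ^ (j - i) * cf lam u ψ n (2 * i - j)) -
      LL (1 / 2) (-((starRingEnd ℂ) 1 / 2)) j (Pf lam u ψ 1 n))) atTop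
      (𝓝 (∑ l ∈ Finset.range (2 * j + 1), ζ ^ (l * j) * 0)) :=
    tendsto_finsetSum _ fun l _ => (hX l).const_mul _
  simp only [mul_zero, Finset.sum_const_zero] at hS
  have hE : ∀ n, ∑ l ∈ Finset.range (2 * j + 1), ζ ^ (l * j) *
      ((∑ i ∈ Finset.range (j + 1), (j.choose i : ℂ) * ((starRingEnd ℂ) (ζ ^ l) / 2) ^ i *
        (-(ζ ^ l / 2)) ^ (j - i) * cf lam u ψ n (2 * i - j)) -
      LL (1 / 2) (-((starRingEnd ℂ) 1 / 2)) j (Pf lam u ψ 1 n)) =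
      (2 * j + 1) * (1 / 2) ^ j * cf lam u ψ n j := by
    intro n
    rw [← comb hj hζ (cf lam u ψ n) (fun l => (starRingEnd ℂ) (ζ ^ l)) hv]
    simp only [mul_sub]
    rw [Finset.sum_sub_distrib, ← Finset.sum_mul, rsum hζ hj (by omega), zero_mul, sub_zero]
  simp only [hE] at hS
  have hne : ((2 * j + 1 : ℂ) * (1 / 2) ^ j) ≠ 0 := by
    refine mul_ne_zero ?_ (pow_ne_zero _ (by norm_num))
    have : ((2 * j + 1 : ℕ) : ℂ) ≠ 0 := Nat.cast_ne_zero.2 (by omega)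
    push_cast at this
    exact this
  have h9 := hS.const_mul ((2 * j + 1 : ℂ) * (1 / 2) ^ j)⁻¹
  rw [mul_zero] at h9
  refine h9.congr fun n => ?_
  rw [← mul_assoc, inv_mul_cancel₀ hne, one_mul]

theorem DER3 : S_DER1 → S_DER2 → S_DER := by
  intro h1 h2 Ω lam u H hs hT φ hφ k
  have hψ := wt_tf' H hφ
  have e1 : ∀ n, area Ω (fun z => (φ z : ℂ) * ((u n z : ℂ) *
      (Pool.Agent.N661.BH.D (lam n))^[k] (fun w => (u n w : ℂ)) z)) = cf lam u (wt φ) n k := by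
    intro n
    rw [area_eq hφ]
    unfold cf
    congr 1
    funext z
    rw [w0, wl_eq]
    rfl
  simp only [e1]
  by_cases hk : k = 0
  · subst hk
    rw [if_pos rfl]
    have a1 := hT (wt φ) hψ 0
    rw [norm_zero, J0_zero, one_mul] at a1
    have a2 := (Complex.continuous_ofReal.tendsto _).comp a1
    have e2 : area Ω (fun z => (φ z : ℂ)) = ((∫ z, wt φ z : ℝ) : ℂ) := by
      have e3 := area_eq hφ (fun _ => 1)
      simp only [mul_one] at e3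
      rw [e3, integral_complex_ofReal]
    rw [e2]
    refine a2.congr fun n => ?_
    change ((T2 (wt φ) (lam n) (u n) 0 : ℝ) : ℂ) = _
    have e4 := Pf_T2 (lam := lam) (u := u) (wt φ) 0 n 0
    rw [Pf_zero, mul_zero] at e4
    rw [← e4]
    rfl
  · rw [if_neg hk]
    exact cj h1 h2 hs hT hψ hk

end

end Pool.Agent.N603.QBDER3
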