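import Pool.Agent.N804.GM.StmS

/-!
# SC/5: the value at a point against the convexity bound and the geometric mean
-/

set_option autoImplicit false

namespace Pool.Agent.N603.SC5

open Filter Topology Set MeasureTheory
open Pool.Agent.W188.GLR Pool.Agent.N799.LH Pool.Agent.N799.GL Pool.Agent.N804.GM

/-- the kernel -/
noncomputable def ker (W y : ℝ) : ℝ := 1 / Real.cosh (Real.pi * y / W)

theorem ker_pos (W y : ℝ) : 0 < ker W y := by
  unfold ker
  have := Real.cosh_pos (Real.pi * y / W)
  positivity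

theorem div_ker (a W y : ℝ) : a / Real.cosh (Real.pi * y / W) = a * ker W y := by
  unfold ker
  rw [mul_one_div]

theorem ker_cont (W : ℝ) : Continuous (ker W) := by
  unfold ker
  refine continuous_const.div (Real.continuous_cosh.comp (by fun_prop)) fun y =>
    (Real.cosh_pos _).ne'

/-- integrability of the kernel, and its mass -/
theorem ker_int (h : S_STRIP) {W : ℝ} (hW : 0 < W) :
    Integrable (ker W) ∧ ∫ y : ℝ, ker W y ≤ W := by
  have hlog : ∀ _s : ℂ, Real.log ‖Complex.exp (-1)‖ = -1 := by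
    intro _
    rw [Complex.norm_exp, Real.log_exp]
    norm_num
  obtain ⟨h1, -, h3⟩ := h (fun _ => Complex.exp (-1)) 0 W hW analyticOnNhd_const (by
    intro s _ _
    rw [zero_mul, Real.exp_zero, Complex.norm_exp]
    apply Real.exp_le_one_iff.2
    norm_num) (Complex.exp_ne_zero _)
  simp only [hlog 0, div_ker] at h1 h3
  have h4 : Integrable (ker W) := by
    have := h1.neg
    refine this.congr (Eventually.of_forall fun y => ?_)
    simp
  refine ⟨h4, ?_⟩
  rw [integral_const_mul] at h3
  have h5 : 1 / (2 * W) * ((-1 + -1) * ∫ y : ℝ, ker W y) = -(∫ y : ℝ, ker W y) / W := by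
    field_simp
    ring
  rw [h5, le_div_iff₀ hW] at h3
  linarith

/-- integrability of the logarithm against the kernel -/
theorem ker_log (h : S_STRIP) {W : ℝ} (hW : 0 < W) :
    Integrable (fun y : ℝ => Real.log (1 + |y|) * ker W y) := by
  have hre : ∀ s : ℂ, 0 ≤ s.re → s + 2 ≠ 0 := by
    intro s hs h0
    have := congrArg Complex.re h0
    rw [Complex.add_re] at this
    norm_num at this
    linarith
  obtain ⟨h1, -, -⟩ := h (fun s => (s + 2) ^ 2) (2 * (W + 2)) W hW (by
    intro z _
    fun_prop) (by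
    intro s hs0 hs1
    rw [norm_pow]
    have h2 : ‖s + 2‖ ≤ (W + 2) * (1 + |s.im|) := by
      have h3 := Complex.norm_le_abs_re_add_abs_im (s + 2)
      have h4 : (s + 2).re = s.re + 2 := by simp
      have h5 : (s + 2).im = s.im := by simp
      rw [h4, h5, abs_of_nonneg (by linarith)] at h3
      nlinarith [abs_nonneg s.im]
    have h3 : (W + 2) * (1 + |s.im|) ≤ Real.exp ((W + 2) * (1 + |s.im|)) := by
      have := Real.add_one_le_exp ((W + 2) * (1 + |s.im|))
      linarith
    calc ‖s + 2‖ ^ 2 ≤ Real.exp ((W + 2) * (1 + |s.im|)) ^ 2 :=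
          pow_le_pow_left₀ (norm_nonneg _) (h2.trans h3) 2
      _ = Real.exp (2 * (W + 2) * (1 + |s.im|)) := by
          rw [← Real.exp_nat_mul]
          congr 1
          push_cast
          ring) (by
    apply pow_ne_zero
    apply hre
    have h4 : ((W : ℂ) / 2).re = W / 2 := by
      rw [show (W : ℂ) / 2 = ((W / 2 : ℝ) : ℂ) by push_cast; ring, Complex.ofReal_re]
    rw [h4]
    positivity)
  refine h1.mono' ?_ (Eventually.of_forall fun y => ?_)
  · have hc : Continuous fun y : ℝ => Real.log (1 + |y|) * ker W y := by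
      refine Continuous.mul (Continuous.log (by fun_prop) fun y => ?_) (ker_cont W)
      have := abs_nonneg y
      positivity
    exact hc.aestronglyMeasurable
  · have hy := abs_nonneg y
    have h0 : 0 ≤ Real.log (1 + |y|) := Real.log_nonneg (by linarith)
    rw [Real.norm_of_nonneg (mul_nonneg h0 (ker_pos W y).le), div_ker]
    apply mul_le_mul_of_nonneg_right _ (ker_pos W y).le
    apply Real.log_le_log (by linarith)
    rw [norm_pow, Complex.sq_norm, Complex.normSq_apply]
    have h4 : ((y : ℂ) * Complex.I + 2).re = 2 := by simp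
    have h5 : ((y : ℂ) * Complex.I + 2).im = y := by simp
    rw [h4, h5]
    nlinarith [sq_abs y, sq_nonneg (|y| - 1 / 2)]

/-- the part of the kernel near 0 -/
theorem ker_near (h : S_STRIP) {W : ℝ} (hW0 : 1 / 2 ≤ W) (hW1 : W ≤ 1) :
    Integrable (fun y : ℝ => (Icc (-1 : ℝ) 1).indicator (ker W) y) ∧
    2 / Real.cosh (2 * Real.pi) * W ≤ ∫ y : ℝ, (Icc (-1 : ℝ) 1).indicator (ker W) y ∧
    ∫ y : ℝ, (Icc (-1 : ℝ) 1).indicator (ker W) y ≤ W := by
  have hW : 0 < W := by linarith
  obtain ⟨h1, h2⟩ := ker_int h hW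
  have h3 : Integrable (fun y : ℝ => (Icc (-1 : ℝ) 1).indicator (ker W) y) :=
    h1.indicator measurableSet_Icc
  have hπ := Real.pi_pos
  refine ⟨h3, ?_, ?_⟩
  · rw [integral_indicator measurableSet_Icc]
    have h4 : ∫ _y in Icc (-1 : ℝ) 1, 1 / Real.cosh (2 * Real.pi) ≤
        ∫ y in Icc (-1 : ℝ) 1, ker W y := by
      refine setIntegral_mono_on (integrableOn_const (by simp)) h1.integrableOn
        measurableSet_Icc fun y hy => ?_
      unfold ker
      apply one_div_le_one_div_of_le (Real.cosh_pos _)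
      rw [Real.cosh_le_cosh, abs_of_pos (by positivity : 0 < 2 * Real.pi), abs_div, abs_mul,
        abs_of_pos hπ, abs_of_pos hW, div_le_iff₀ hW]
      have h5 : |y| ≤ 1 := abs_le.2 hy
      nlinarith
    rw [setIntegral_const, Measure.real, Real.volume_Icc, ENNReal.toReal_ofReal (by norm_num),
      smul_eq_mul] at h4
    refine le_trans ?_ h4
    have h5 := Real.cosh_pos (2 * Real.pi)
    have h6 : 0 < 2 / Real.cosh (2 * Real.pi) := by positivity
    calc 2 / Real.cosh (2 * Real.pi) * W ≤ 2 / Real.cosh (2 * Real.pi) * 1 := by gcongr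
      _ = (1 - -1) * (1 / Real.cosh (2 * Real.pi)) := by ring
  · refine le_trans (integral_mono h3 h1 fun y => ?_) h2
    exact indicator_le_self' (fun z _ => (ker_pos W z).le) y

/-- entire functions have few zeros on vertical lines -/
theorem ae_ne {f : ℂ → ℂ} (hf : Differentiable ℂ f) {s0 : ℂ} (h0 : f s0 ≠ 0) (c : ℂ) :
    ∀ᵐ y : ℝ, f (c + y * Complex.I) ≠ 0 := by
  have hlin : ∀ y : ℝ, AnalyticAt ℝ (fun y : ℝ => c + (y : ℂ) * Complex.I) y := by
    intro y
    have h2 : AnalyticAt ℝ (fun y : ℝ => (y : ℂ)) y := Complex.ofRealCLM.analyticAt y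
    exact analyticAt_const.add (h2.mul analyticAt_const)
  have hg : AnalyticOnNhd ℝ (fun y : ℝ => f (c + y * Complex.I)) univ := by
    intro y _
    have h1 : AnalyticAt ℝ f (c + y * Complex.I) := (hf.analyticAt _).restrictScalars
    exact AnalyticAt.fun_comp (g := f) h1 (hlin y)
  have hex : ∃ x : ℝ, f (c + x * Complex.I) ≠ 0 := by
    by_contra hcon
    push Not at hcon
    have ht : Tendsto (fun y : ℝ => c + (y : ℂ) * Complex.I) (𝓝[≠] 0) (𝓝[≠] c) := by
      refine tendsto_nhdsWithin_iff.2 ⟨?_, ?_⟩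
      · have h3 : Tendsto (fun y : ℝ => c + (y : ℂ) * Complex.I) (𝓝 0)
            (𝓝 (c + ((0 : ℝ) : ℂ) * Complex.I)) := (hlin 0).continuousAt.tendsto
        rw [Complex.ofReal_zero, zero_mul, add_zero] at h3
        exact h3.mono_left nhdsWithin_le_nhds
      · filter_upwards [self_mem_nhdsWithin] with y hy h3
        apply hy
        have h4 : (y : ℂ) * Complex.I = 0 := by
          have h5 : c + (y : ℂ) * Complex.I = c := h3
          exact (add_eq_left).1 h5
        rcases mul_eq_zero.1 h4 with h5 | h5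
        · exact_mod_cast h5
        · exact absurd h5 Complex.I_ne_zero
    have h1 : ∃ᶠ z in 𝓝[≠] c, f z = 0 :=
      ht.frequently (Eventually.of_forall fun y => hcon y).frequently
    have h2 := AnalyticOnNhd.eqOn_zero_of_preconnected_of_frequently_eq_zero (f := f)
      (U := univ) (fun z _ => hf.analyticAt z) isPreconnected_univ (mem_univ c) h1
    exact h0 (h2 (mem_univ s0))
  obtain ⟨x, hx⟩ := hex
  have h1 := AnalyticOnNhd.preimage_zero_mem_codiscrete hg hx
  have h2 := ae_restrict_le_codiscreteWithin (μ := (volume : Measure ℝ)) (U := univ)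
    MeasurableSet.univ h1
  rw [Measure.restrict_univ] at h2
  filter_upwards [h2] with y hy using hy

/-- local integrability of the logarithm on vertical lines -/
theorem log_int {f : ℂ → ℂ} (hf : Differentiable ℂ f) (c : ℂ) (a b : ℝ) :
    IntervalIntegrable (fun y : ℝ => Real.log ‖f (c + y * Complex.I)‖) volume a b := by
  have hg : MeromorphicOn (fun y : ℝ => f (c + y * Complex.I)) (uIcc a b) := by
    intro y _
    have h1 : AnalyticAt ℝ f (c + y * Complex.I) := (hf.analyticAt _).restrictScalars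
    have h2 : AnalyticAt ℝ (fun y : ℝ => (y : ℂ)) y := Complex.ofRealCLM.analyticAt y
    have h3 : AnalyticAt ℝ (fun y : ℝ => c + (y : ℂ) * Complex.I) y :=
      analyticAt_const.add (h2.mul analyticAt_const)
    have h4 : AnalyticAt ℝ (fun y : ℝ => f (c + y * Complex.I)) y :=
      AnalyticAt.fun_comp (g := f) h1 h3
    exact h4.meromorphicAt
  exact hg.intervalIntegrable_log_norm

theorem arith {lx a L A1 X c M D c2 η ε I m2 C1 E : ℝ}
    (h1 : lx ≤ (a * L + A1) / 2 + X - c * M * D) (h7 : -(c * M * D) ≤ -(c2 * D) + c * E)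
    (hD : D = 1 / 2 * L - I) (hE : E = 2 * (η * L + (1 / 4 + η) * m2 + C1))
    (ha : a = 1 / 2 + 9 * η) (h8 : (9 / 2 * η + 2 * c * η) * L ≤ ε * L) :
    lx ≤ (1 - 2 * c2) * (1 / 4 * L) + 2 * c2 * (1 / 2 * I) + ε * L +
      (A1 / 2 + X + 2 * c * ((1 / 4 + η) * m2 + C1)) := by
  have h9 : lx ≤ (a * L + A1) / 2 + X + (-(c2 * D) + c * E) := by linarith
  rw [hD, hE, ha] at h9
  linarith

theorem arith2 {l0 U a L A1 c D η K K' Ch hw la' m l : ℝ}
    (hfe : l0 ≤ hw * la' + K + U) (e1 : hw * la' ≤ hw * (m * l + L))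
    (u3 : U ≤ (1 / 8 + 4 * η) * L + Ch - c * D) (e4 : 0 ≤ (1 / 8 + 4 * η) * (m * l))
    (e3 : K ≤ K') (hhw : hw = 1 / 4 + η) (ha : a = 1 / 2 + 9 * η) (hA1 : A1 = K' + 2 * Ch) :
    l0 + U ≤ (a * L + A1) + a * m * l - 2 * c * D := by
  have h1 : l0 + U ≤ hw * (m * l + L) + K' + 2 * U := by linarith
  rw [hhw] at h1
  rw [ha, hA1]
  linarith

theorem arith3 {l0 U a L A1 η K K' Ch hw la' m l : ℝ}
    (hfe : l0 ≤ hw * la' + K + U) (e1 : hw * la' ≤ hw * (m * l + L))
    (u3 : U ≤ (1 / 8 + 4 * η) * (m * l + L) + Ch)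
    (e3 : K ≤ K') (hhw : hw = 1 / 4 + η) (ha : a = 1 / 2 + 9 * η) (hA1 : A1 = K' + 2 * Ch) :
    l0 + U ≤ (a * L + A1) + a * m * l := by
  have h1 : l0 + U ≤ hw * (m * l + L) + K' + 2 * U := by linarith
  rw [hhw] at h1
  rw [ha, hA1]
  linarith

theorem main (h : S_STRIP) (hh' : S_HALF) (hc : S_CVX) : S_SC := by
  obtain ⟨c, hc0, hhalf'⟩ := hh'
  have hπ := Real.pi_pos
  set m0 : ℝ := 2 / Real.cosh (2 * Real.pi) with hm0
  have hch : 1 < Real.cosh (2 * Real.pi) := Real.one_lt_cosh.2 (by positivity)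
  have hm0p : 0 < m0 := by positivity
  have hm01 : m0 < 2 := by
    rw [hm0, div_lt_iff₀ (by linarith)]
    linarith
  set c2 : ℝ := min c (1 / 4) * m0 with hc2
  have hc2p : 0 < c2 := by positivity
  have hc2l : c2 ≤ c * m0 := mul_le_mul_of_nonneg_right (min_le_left _ _) hm0p.le
  have hc2r : c2 < 1 / 2 := by
    calc c2 ≤ 1 / 4 * m0 := mul_le_mul_of_nonneg_right (min_le_right _ _) hm0p.le
      _ < 1 / 4 * 2 := by linarith
      _ = 1 / 2 := by norm_num
  refine ⟨2 * c2, by positivity, by linarith, ?_⟩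
  intro ι m N mu f X δ H ε hε
  obtain ⟨η, hη0, hη1, hη2⟩ : ∃ η : ℝ, 0 < η ∧ η ≤ 1 / 4 ∧ η * (20 * (1 + c)) ≤ ε := by
    refine ⟨min (1 / 4) (ε / (20 * (1 + c))), by positivity, min_le_left _ _, ?_⟩
    have h1 : min (1 / 4) (ε / (20 * (1 + c))) ≤ ε / (20 * (1 + c)) := min_le_right _ _
    rwa [le_div_iff₀ (by positivity)] at h1
  obtain ⟨Ch, hCh0, hhalf⟩ := hhalf' ι m N mu f X δ H η hη0 hη1
  obtain ⟨C1, hC10, hcvx⟩ := hc ι m N mu f X δ H η hη0
  clear hhalf' hc
  set hw : ℝ := 1 / 4 + η with hhw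
  have hw0 : 0 < hw := by positivity
  obtain ⟨K, hK⟩ := hh_up m H.hδ 0 hw le_rfl hw0.le
  obtain ⟨C0, hC0, hcr⟩ := Pool.Agent.H983R4.GL.crude H.afam
  set W : ℝ := 2 * hw with hW
  have hW0 : 0 < W := by positivity
  obtain ⟨k1, k2⟩ := ker_int h hW0
  have k3 := ker_log h hW0
  obtain ⟨k4, k5, k6⟩ := ker_near h (W := W) (by rw [hW, hhw]; linarith) (by rw [hW, hhw]; linarith)
  rw [← hm0] at k5
  set J : ℝ := ∫ y : ℝ, ker W y with hJ
  set J1 : ℝ := ∫ y : ℝ, (Icc (-1 : ℝ) 1).indicator (ker W) y with hJ1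
  set Jl : ℝ := ∫ y : ℝ, Real.log (1 + |y|) * ker W y with hJl
  have hJl0 : 0 ≤ Jl := integral_nonneg fun y =>
    mul_nonneg (Real.log_nonneg (by linarith [abs_nonneg y])) (ker_pos W y).le
  have hJ0 : 0 ≤ J := integral_nonneg fun y => (ker_pos W y).le
  set a : ℝ := 1 / 2 + 9 * η with ha
  have ha0 : 0 < a := by positivity
  set A1 : ℝ := |K| + 2 * Ch with hA1
  have hA10 : 0 ≤ A1 := by positivity
  have hm00 : (0 : ℝ) ≤ m := Nat.cast_nonneg _
  have hlog2 : 0 ≤ Real.log 2 := Real.log_nonneg (by norm_num)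
  refine ⟨A1 / 2 + a * m * Jl / (2 * W) + 2 * c * ((1 / 4 + η) * (m * Real.log 2) + C1),
    by positivity, fun i t h0 => ?_⟩
  set L : ℝ := la N mu (i, t) with hL
  have hL0 : 0 ≤ L := Real.log_nonneg (QL_pos (H.N_pos i) _ _)
  have hent := H.entire i
  have hsh : ∀ y R : ℝ, |y| ≤ R → la N mu (i, t + y) ≤ m * Real.log (1 + R) + L := fun y R hy =>
    la_shift (H.N_pos i) (mu i) t y R hy
  -- the local mean
  set D : ℝ := ∫ v in (t - 1)..(t + 1), (1 / 4 * L - Real.log ‖f i (1 / 2 + v * Complex.I)‖)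
    with hD
  have hli : IntervalIntegrable (fun v : ℝ => Real.log ‖f i (1 / 2 + v * Complex.I)‖) volume
      (t - 1) (t + 1) := log_int hent (1 / 2) _ _
  have hDe : D = 1 / 2 * L - ∫ v in (t - 1)..(t + 1), Real.log ‖f i (1 / 2 + v * Complex.I)‖ := by
    rw [hD, intervalIntegral.integral_sub intervalIntegrable_const hli,
      intervalIntegral.integral_const, smul_eq_mul]
    ring
  set E : ℝ := 2 * (η * L + (1 / 4 + η) * (m * Real.log 2) + C1) with hE
  have hE0 : 0 ≤ E := by positivity
  have hDE : 0 ≤ D + E := by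
    have h1 : ∫ v in (t - 1)..(t + 1), Real.log ‖f i (1 / 2 + v * Complex.I)‖ ≤
        ∫ _v in (t - 1)..(t + 1), (hw * (m * Real.log 2 + L) + C1) := by
      refine intervalIntegral.integral_mono_on (by linarith) hli intervalIntegrable_const ?_
      intro v hv
      refine (hcvx i v).trans ?_
      have h2 := hsh (v - t) 1 (abs_le.2 ⟨by linarith [hv.1], by linarith [hv.2]⟩)
      rw [add_sub_cancel, show (1 : ℝ) + 1 = 2 by norm_num] at h2
      have h3 : hw * la N mu (i, v) ≤ hw * (m * Real.log 2 + L) :=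
        mul_le_mul_of_nonneg_left h2 (by positivity)
      linarith
    rw [intervalIntegral.integral_const, smul_eq_mul] at h1
    rw [hDe, hE]
    rw [hhw] at h1
    linarith
  -- the function on the strip
  set z0 : ℂ := ((1 / 2 - hw : ℝ) : ℂ) + t * Complex.I with hz0
  have hz0re : z0.re = 1 / 2 - hw := by
    rw [hz0]
    simp
  have hz0im : z0.im = t := by
    rw [hz0]
    simp
  have hP := H.C1 i
  set P : ℝ := (N i : ℝ) * ∏ j, (1 + ‖mu i j‖) with hPdef
  have hlogP : 0 ≤ Real.log P := Real.log_nonneg hP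
  have hlogC : 0 ≤ Real.log C0 := Real.log_nonneg hC0
  have ht0 : 0 ≤ Real.log (1 + |t|) := Real.log_nonneg (by linarith [abs_nonneg t])
  have hmid : z0 + ((W : ℂ) / 2) = 1 / 2 + t * Complex.I := by
    rw [hz0, hW]
    push_cast
    ring
  obtain ⟨i1, i2, i3⟩ := h (fun z => f i (z0 + z)) (Real.log C0 + m * Real.log P +
      m * Real.log (1 + |t|) + m) W hW0 (by
      intro z _
      have h2 : Differentiable ℂ (fun z => f i (z0 + z)) := hent.comp (by fun_prop)
      exact h2.analyticAt z) (by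
      intro z hz _
      have hre : (z0 + z).re = 1 / 2 - hw + z.re := by
        rw [Complex.add_re, hz0re]
      have him : (z0 + z).im = t + z.im := by
        rw [Complex.add_im, hz0im]
      have h1 := hcr i (z0 + z) (by rw [hre, hhw]; linarith)
      rw [him] at h1
      refine h1.trans ?_
      have q0 : 0 < 1 + |t + z.im| := by positivity
      have q1 : 1 + |t + z.im| ≤ (1 + |t|) * (1 + |z.im|) := by
        have e1 := abs_add_le t z.im
        have e3 : 0 ≤ |t| * |z.im| := by positivity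
        nlinarith
      have q2 : Real.log (1 + |t + z.im|) ≤ Real.log (1 + |t|) + |z.im| := by
        have h2 := Real.log_le_log q0 q1
        rw [Real.log_mul (by positivity) (by positivity)] at h2
        have h3 := Real.log_le_sub_one_of_pos (show 0 < 1 + |z.im| by positivity)
        linarith
      have hP0 : 0 < P := by linarith
      have e4 : ((1 + |t + z.im|) * P) ^ (m : ℝ) =
          Real.exp (m * (Real.log (1 + |t + z.im|) + Real.log P)) := by
        rw [Real.rpow_def_of_pos (by positivity), Real.log_mul q0.ne' hP0.ne', mul_comm]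
      change C0 * ((1 + |t + z.im|) * P) ^ (m : ℝ) ≤ _
      rw [e4]
      nth_rewrite 1 [← Real.exp_log (show 0 < C0 by linarith)]
      rw [← Real.exp_add]
      apply Real.exp_le_exp.2
      have q3 : m * (Real.log (1 + |t + z.im|) + Real.log P) ≤
          m * (Real.log (1 + |t|) + |z.im| + Real.log P) := by
        gcongr
      have q4 : 0 ≤ (Real.log C0 + m * Real.log P + m * Real.log (1 + |t|)) * |z.im| := by
        positivity
      nlinarith) (by
      change f i (z0 + (W : ℂ) / 2) ≠ 0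
      rw [hmid]
      exact h0)
  change Real.log ‖f i (z0 + (W : ℂ) / 2)‖ ≤ _ at i3
  rw [hmid] at i3
  simp only [div_ker] at i1 i2 i3
  -- the pointwise inequality
  have hae : ∀ᵐ y : ℝ, (Real.log ‖f i (z0 + y * Complex.I)‖ +
      Real.log ‖f i (z0 + (W + y * Complex.I))‖) * ker W y ≤
      (a * L + A1) * ker W y + a * m * (Real.log (1 + |y|) * ker W y) -
        2 * c * D * (Icc (-1 : ℝ) 1).indicator (ker W) y := by
    filter_upwards [ae_ne hent h0 z0, ae_ne hent h0 (z0 + W)] with y hy1 hy2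
    rw [add_assoc] at hy2
    have hk := ker_pos W y
    have hpt : z0 + (W + y * Complex.I) = ((3 / 4 + η : ℝ) : ℂ) + ((t + y : ℝ) : ℂ) * Complex.I := by
      rw [hz0, hW, hhw]
      push_cast
      ring
    have hl0 : 0 ≤ Real.log (1 + |y|) := Real.log_nonneg (by linarith [abs_nonneg y])
    -- the functional equation
    have hfe : Real.log ‖f i (z0 + y * Complex.I)‖ ≤ hw * la N mu (i, t + y) + K +
        Real.log ‖f i (z0 + (W + y * Complex.I))‖ := by
      obtain ⟨root, hroot, hfe⟩ := H.fe i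
      have h1 := hK (N i) (mu i) root (f i) (t + y) (z0 + (W + y * Complex.I)) (H.N_pos i)
        (H.gap i) hroot hfe
      have hre : (z0 + (W + y * Complex.I)).re = 1 / 2 + hw := by
        rw [Complex.add_re, hz0re]
        simp only [Complex.add_re, Complex.ofReal_re, Complex.mul_re, Complex.I_re, mul_zero,
          Complex.ofReal_im, Complex.I_im, mul_one, sub_self, add_zero]
        rw [hW]
        ring
      have him : (z0 + (W + y * Complex.I)).im = t + y := by
        rw [Complex.add_im, hz0im]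
        simp
      rw [hre, him] at h1
      have h2 := h1 (by linarith) le_rfl (by rw [sub_self, abs_zero])
      have h3 : ‖hh (f i) (z0 + (W + y * Complex.I))‖ = ‖f i (z0 + y * Complex.I)‖ := by
        unfold hh
        rw [RCLike.norm_conj]
        congr 2
        rw [hz0, hW]
        simp only [map_add, map_mul, Complex.conj_ofReal, Complex.conj_I]
        push_cast
        ring
      rw [h3, add_sub_cancel_left] at h2
      have h4 := Real.log_le_log (norm_pos_iff.2 hy1) h2
      rw [Real.log_mul (Real.exp_pos _).ne' (norm_pos_iff.2 hy2).ne', Real.log_exp] at h4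
      exact h4
    have hv := hsh y |y| le_rfl
    rw [hpt] at hy2
    obtain ⟨u1, u2⟩ := hhalf i (t + y) hy2
    rw [← hpt] at u1 u2
    set U : ℝ := Real.log ‖f i (z0 + (W + y * Complex.I))‖ with hU
    have e1 : hw * la N mu (i, t + y) ≤ hw * (m * Real.log (1 + |y|) + L) :=
      mul_le_mul_of_nonneg_left hv hw0.le
    have e2 : (1 / 8 + 4 * η) * la N mu (i, t + y) ≤
        (1 / 8 + 4 * η) * (m * Real.log (1 + |y|) + L) :=
      mul_le_mul_of_nonneg_left hv (by positivity)
    have e3 := le_abs_self K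
    by_cases hy : y ∈ Icc (-1 : ℝ) 1
    · rw [indicator_of_mem hy]
      have u3 := u2 t (by
        rw [add_sub_cancel_left]
        exact abs_le.2 hy)
      rw [← hL, ← hD] at u3
      have e4 : 0 ≤ (1 / 8 + 4 * η) * (m * Real.log (1 + |y|)) := by positivity
      have e5 : Real.log ‖f i (z0 + y * Complex.I)‖ + U ≤
          (a * L + A1) + a * m * Real.log (1 + |y|) - 2 * c * D :=
        arith2 hfe e1 u3 e4 e3 hhw ha hA1
      calc _ ≤ ((a * L + A1) + a * m * Real.log (1 + |y|) - 2 * c * D) * ker W y :=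
            mul_le_mul_of_nonneg_right e5 hk.le
        _ = _ := by ring
    · rw [indicator_of_notMem hy, mul_zero, sub_zero]
      have e5 : Real.log ‖f i (z0 + y * Complex.I)‖ + U ≤
          (a * L + A1) + a * m * Real.log (1 + |y|) :=
        arith3 hfe e1 (u1.trans (add_le_add_left e2 _)) e3 hhw ha hA1
      calc _ ≤ ((a * L + A1) + a * m * Real.log (1 + |y|)) * ker W y :=
            mul_le_mul_of_nonneg_right e5 hk.le
        _ = _ := by ring
  -- the integral
  have hint : ∫ y : ℝ, (Real.log ‖f i (z0 + y * Complex.I)‖ +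
      Real.log ‖f i (z0 + (W + y * Complex.I))‖) * ker W y ≤
      (a * L + A1) * J + a * m * Jl - 2 * c * D * J1 := by
    have g1 := k1.const_mul (a * L + A1)
    have g2 := k3.const_mul (a * m)
    have g3 := k4.const_mul (2 * c * D)
    have hl : Integrable fun y : ℝ => (Real.log ‖f i (z0 + y * Complex.I)‖ +
        Real.log ‖f i (z0 + (W + y * Complex.I))‖) * ker W y := by
      refine (i1.add i2).congr (Eventually.of_forall fun y => ?_)
      simp only [Pi.add_apply]
      ring
    have h1 := integral_mono_ae hl ((g1.add g2).sub g3) hae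
    refine h1.trans (le_of_eq ?_)
    have h2 : ∫ y : ℝ, (((fun y => (a * L + A1) * ker W y) +
        fun y => a * m * (Real.log (1 + |y|) * ker W y)) -
        fun y => 2 * c * D * (Icc (-1 : ℝ) 1).indicator (ker W) y) y =
        (∫ y : ℝ, (a * L + A1) * ker W y) + (∫ y : ℝ, a * m * (Real.log (1 + |y|) * ker W y)) -
        ∫ y : ℝ, 2 * c * D * (Icc (-1 : ℝ) 1).indicator (ker W) y := by
      rw [integral_sub' (g1.add g2) g3, integral_add' g1 g2]
    rw [h2, integral_const_mul, integral_const_mul, integral_const_mul]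
  have hfin : Real.log ‖f i (1 / 2 + t * Complex.I)‖ ≤
      1 / (2 * W) * ((a * L + A1) * J + a * m * Jl - 2 * c * D * J1) :=
    i3.trans (mul_le_mul_of_nonneg_left hint (by positivity))
  have hM1 : m0 ≤ J1 / W := by
    rw [le_div_iff₀ hW0]
    exact k5
  have hM2 : J1 / W ≤ 1 := by
    rw [div_le_one hW0]
    exact k6
  set M : ℝ := J1 / W with hM
  have hfin2 : Real.log ‖f i (1 / 2 + t * Complex.I)‖ ≤
      (a * L + A1) / 2 + a * m * Jl / (2 * W) - c * M * D := by
    have h1 : (a * L + A1) * J ≤ (a * L + A1) * W := mul_le_mul_of_nonneg_left k2 (by positivity)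
    have h2 : 1 / (2 * W) * ((a * L + A1) * J + a * m * Jl - 2 * c * D * J1) ≤
        1 / (2 * W) * ((a * L + A1) * W + a * m * Jl - 2 * c * D * J1) :=
      mul_le_mul_of_nonneg_left (by linarith) (by positivity)
    have h3 : 1 / (2 * W) * ((a * L + A1) * W + a * m * Jl - 2 * c * D * J1) =
        (a * L + A1) / 2 + a * m * Jl / (2 * W) - c * M * D := by
      rw [hM]
      field_simp
    linarith
  have hcM : c2 ≤ c * M := hc2l.trans (mul_le_mul_of_nonneg_left hM1 hc0.le)
  have h4 : c2 * (D + E) ≤ c * M * (D + E) := mul_le_mul_of_nonneg_right hcM hDE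
  have h5 : c * M * E ≤ c * E := by
    have : c * M ≤ c * 1 := mul_le_mul_of_nonneg_left hM2 hc0.le
    rw [mul_one] at this
    exact mul_le_mul_of_nonneg_right this hE0
  have h6 : 0 ≤ c2 * E := by positivity
  have h7 : -(c * M * D) ≤ -(c2 * D) + c * E := by linarith
  have h8 : (9 / 2 * η + 2 * c * η) * L ≤ ε * L := by
    apply mul_le_mul_of_nonneg_right _ hL0
    have h9 : 0 ≤ η * c := by positivity
    linarith
  exact arith hfin2 h7 hDe hE ha h8

end Pool.Agent.N603.SC5
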